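import Pool.Agent.Q196.EX.Dyn

/-!
# From one shared value to two shared values
-/

set_option autoImplicit false

open Polynomial Topology Set Filter

namespace Q196.EX

/-- `p' q - p q'` -/
noncomputable def wr (p q : ℂ[X]) : ℂ[X] := derivative p * q - p * derivative q

/-- `p / q` and `lam w (p / q)'` share `a` in the punctured plane. -/
def PS (p q : ℂ[X]) (lam a : ℂ) : Prop :=
  ∀ w : ℂ, w ≠ 0 → q.eval w ≠ 0 →
    (p.eval w = a * q.eval w ↔ lam * w * (wr p q).eval w = a * q.eval w ^ 2)

/-- `lam (p / q - a) / a` -/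
noncomputable def nn (p q : ℂ[X]) (lam a : ℂ) : ℂ[X] := C (lam / a) * (p - C a * q)

variable {p q : ℂ[X]} {lam a b : ℂ}

theorem nn_eval (w : ℂ) : (nn p q lam a).eval w = lam / a * (p.eval w - a * q.eval w) := by
  simp [nn]

theorem nn_eval_eq_zero (hlam : lam ≠ 0) (ha : a ≠ 0) (w : ℂ) :
    (nn p q lam a).eval w = 0 ↔ p.eval w = a * q.eval w := by
  rw [nn_eval, mul_eq_zero, or_iff_right (div_ne_zero hlam ha), sub_eq_zero]

theorem tder_nn (w : ℂ) :
    tder (nn p q lam a) q w = lam / a * (wr p q).eval w / q.eval w ^ 2 := by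
  have h1 : derivative (nn p q lam a) * q - nn p q lam a * derivative q =
      C (lam / a) * wr p q := by
    rw [nn, wr, derivative_C_mul, derivative_sub, derivative_C_mul]
    ring
  have h2 := congrArg (eval w) h1
  simp only [eval_sub, eval_mul, eval_C] at h2
  rw [tder, h2]

theorem yfun_nn (ha : a ≠ 0) {w : ℂ} (hq : q.eval w ≠ 0) :
    yfun (nn p q lam a) q w = 0 ↔ lam * w * (wr p q).eval w = a * q.eval w ^ 2 := by
  rw [yfun, tder_nn, sub_eq_zero]
  constructor
  · intro h
    field_simp at h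
    linear_combination -h
  · intro h
    field_simp
    linear_combination -h

theorem zero_ne (hcop : ∀ w : ℂ, q.eval w = 0 → p.eval w ≠ 0) (hnc : ∀ c : ℂ, p ≠ C c * q)
    (hlam : lam ≠ 0) (ha : a ≠ 0) (hs : PS p q lam a) (hq0 : q.eval 0 ≠ 0) :
    p.eval 0 ≠ a * q.eval 0 := by
  intro h0
  have hgood : Good (nn p q lam a) q := by
    refine ⟨?_, hq0, ?_, ?_, ?_, ?_⟩
    · intro w hw
      rw [Ne, nn_eval_eq_zero hlam ha, hw, mul_zero]
      exact hcop w hw
    · rw [nn_eval_eq_zero hlam ha]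
      exact h0
    · intro h
      rw [nn, mul_eq_zero, C_eq_zero, or_iff_right (div_ne_zero hlam ha), sub_eq_zero] at h
      exact hnc a h
    · intro w hw hN
      have hqw : q.eval w ≠ 0 := by
        intro h
        rw [nn_eval_eq_zero hlam ha, h, mul_zero] at hN
        exact hcop w h hN
      rw [yfun_nn ha hqw]
      exact (hs w hw hqw).mp ((nn_eval_eq_zero hlam ha w).mp hN)
    · intro w hw hqw hY
      rw [yfun_nn ha hqw] at hY
      exact (nn_eval_eq_zero hlam ha w).mpr ((hs w hw hqw).mpr hY)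
  exact hgood.false

theorem reflect_eval (f : ℂ[X]) {n : ℕ} (hf : f.natDegree ≤ n) {w : ℂ} (hw : w ≠ 0) :
    (reflect n f).eval w = w ^ n * f.eval w⁻¹ := by
  have : Invertible (w⁻¹) := invertibleOfNonzero (inv_ne_zero hw)
  have h1 := eval₂_reflect_mul_pow (RingHom.id ℂ) (w⁻¹) n f hf
  rw [invOf_eq_inv, inv_inv, ← eval, ← eval] at h1
  rw [← h1, inv_pow]
  have := pow_ne_zero n hw
  field_simp

theorem reflect_eval_zero (f : ℂ[X]) (n : ℕ) : (reflect n f).eval 0 = f.coeff n := by
  rw [← coeff_zero_eq_eval_zero, coeff_reflect]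
  simp [revAt]

theorem tder_reflect {N M : ℂ[X]} {n : ℕ} (hN : N.natDegree ≤ n) (hM : M.natDegree ≤ n) {w : ℂ}
    (hw : w ≠ 0) (hMw : M.eval w⁻¹ ≠ 0) :
    w * tder (-reflect n N) (reflect n M) w = w⁻¹ * tder N M w⁻¹ := by
  have h0 : (reflect n M).eval w ≠ 0 := by
    rw [reflect_eval M hM hw]
    exact mul_ne_zero (pow_ne_zero _ hw) hMw
  have h1 := (hasStrictDerivAt_tfun (-reflect n N) (reflect n M) h0).hasDerivAt
  have h2 : HasDerivAt (fun z => -tfun N M z⁻¹) (-(tder N M w⁻¹ * (-(w ^ 2)⁻¹))) w :=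
    ((hasStrictDerivAt_tfun N M hMw).hasDerivAt.comp w (hasDerivAt_inv hw)).neg
  have h3 : (fun z => -tfun N M z⁻¹) =ᶠ[𝓝 w] tfun (-reflect n N) (reflect n M) := by
    filter_upwards [isOpen_ne.mem_nhds hw] with z hz
    rw [tfun, tfun, eval_neg, reflect_eval N hN hz, reflect_eval M hM hz, neg_div,
      mul_div_mul_left _ _ (pow_ne_zero _ hz)]
  have h4 := (h2.congr_of_eventuallyEq h3.symm).unique h1
  rw [← h4]
  field_simp

theorem inf_ne (hcop : ∀ w : ℂ, q.eval w = 0 → p.eval w ≠ 0) (hnc : ∀ c : ℂ, p ≠ C c * q)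
    (hq : q ≠ 0) (hlam : lam ≠ 0) (ha : a ≠ 0) (hs : PS p q lam a) :
    (p - C a * q).natDegree = max p.natDegree q.natDegree := by
  by_contra hne
  have haq : (C a * q).natDegree = q.natDegree := natDegree_C_mul ha
  have hle : (p - C a * q).natDegree ≤ max p.natDegree q.natDegree := by
    have := natDegree_sub_le p (C a * q)
    rwa [haq] at this
  have hlt : (p - C a * q).natDegree < max p.natDegree q.natDegree := lt_of_le_of_ne hle hne
  have hpq : p.natDegree = q.natDegree := by
    rcases lt_trichotomy p.natDegree q.natDegree with h | h | h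
    · exfalso
      apply hne
      rw [natDegree_sub_eq_right_of_natDegree_lt (by rw [haq]; exact h), haq,
        max_eq_right h.le]
    · exact h
    · exfalso
      apply hne
      rw [natDegree_sub_eq_left_of_natDegree_lt (by rw [haq]; exact h), max_eq_left h.le]
  rw [hpq, max_self] at hlt
  set n := q.natDegree with hn
  set N := nn p q lam a with hN
  have hNn : N.natDegree < n := by
    rw [hN, nn, natDegree_C_mul (div_ne_zero hlam ha)]
    exact hlt
  have key : ∀ w : ℂ, w ≠ 0 → q.eval w⁻¹ ≠ 0 →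
      yfun (-reflect n N) (reflect n q) w = yfun N q w⁻¹ := by
    intro w hw hqw
    rw [yfun, yfun, tder_reflect hNn.le le_rfl hw hqw]
  have hqe : ∀ w : ℂ, w ≠ 0 → ((reflect n q).eval w = 0 ↔ q.eval w⁻¹ = 0) := by
    intro w hw
    rw [reflect_eval q le_rfl hw, mul_eq_zero, or_iff_right (pow_ne_zero _ hw)]
  have hNe : ∀ w : ℂ, w ≠ 0 → ((-reflect n N).eval w = 0 ↔ N.eval w⁻¹ = 0) := by
    intro w hw
    rw [eval_neg, neg_eq_zero, reflect_eval N hNn.le hw, mul_eq_zero,
      or_iff_right (pow_ne_zero _ hw)]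
  have hq0 : (reflect n q).eval 0 ≠ 0 := by
    rw [reflect_eval_zero]
    exact leadingCoeff_ne_zero.mpr hq
  have hgood : Good (-reflect n N) (reflect n q) := by
    refine ⟨?_, hq0, ?_, ?_, ?_, ?_⟩
    · intro w hw
      have hw0 : w ≠ 0 := by
        rintro rfl
        exact hq0 hw
      rw [Ne, hNe w hw0, hN, nn_eval_eq_zero hlam ha, (hqe w hw0).mp hw, mul_zero]
      exact hcop _ ((hqe w hw0).mp hw)
    · rw [eval_neg, reflect_eval_zero, coeff_eq_zero_of_natDegree_lt hNn, neg_zero]
    · intro h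
      rw [neg_eq_zero, reflect_eq_zero_iff, hN, nn, mul_eq_zero, C_eq_zero,
        or_iff_right (div_ne_zero hlam ha), sub_eq_zero] at h
      exact hnc a h
    · intro w hw hNw
      rw [hNe w hw, hN, nn_eval_eq_zero hlam ha] at hNw
      have hqw : q.eval w⁻¹ ≠ 0 := by
        intro h
        rw [h, mul_zero] at hNw
        exact hcop _ h hNw
      rw [key w hw hqw, hN, yfun_nn ha hqw]
      exact (hs _ (inv_ne_zero hw) hqw).mp hNw
    · intro w hw hqw hY
      have hqw' : q.eval w⁻¹ ≠ 0 := fun h => hqw ((hqe w hw).mpr h)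
      rw [key w hw hqw', hN, yfun_nn ha hqw'] at hY
      rw [hNe w hw, hN, nn_eval_eq_zero hlam ha]
      exact (hs _ (inv_ne_zero hw) hqw').mpr hY
  exact hgood.false

theorem natDegree_X_mul_derivative_le (f : ℂ[X]) : (X * derivative f).natDegree ≤ f.natDegree := by
  rcases Nat.eq_zero_or_pos f.natDegree with h0 | h0
  · rw [derivative_of_natDegree_zero h0, mul_zero, natDegree_zero]
    exact Nat.zero_le _
  · refine natDegree_mul_le.trans ?_
    rw [natDegree_X]
    have := natDegree_derivative_le f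
    omega

theorem coeff_X_mul_derivative (f : ℂ[X]) (n : ℕ) :
    (X * derivative f).coeff n = f.coeff n * n := by
  rcases Nat.eq_zero_or_pos n with h0 | h0
  · rw [h0]; simp
  · obtain ⟨k, rfl⟩ : ∃ k, n = k + 1 := ⟨n - 1, by omega⟩
    rw [coeff_X_mul, coeff_derivative]
    push_cast
    ring

theorem simple_dvd {P E : ℂ[X]} (hP : P ≠ 0)
    (h : ∀ w : ℂ, P.eval w = 0 → (derivative P).eval w ≠ 0 ∧ E.eval w = 0) : P ∣ E := by
  rcases eq_or_ne E 0 with rfl | hE
  · exact dvd_zero _
  refine (IsAlgClosed.splits P).dvd_of_roots_le_roots hP ?_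
  rw [Multiset.le_iff_count]
  intro w
  rw [count_roots, count_roots]
  by_cases hw : P.eval w = 0
  · obtain ⟨h1, h2⟩ := h w hw
    have h3 : P.rootMultiplicity w ≤ 1 := by
      by_contra hlt
      push Not at hlt
      exact h1 ((one_lt_rootMultiplicity_iff_isRoot hP).mp hlt).2
    have h4 : 0 < E.rootMultiplicity w := (rootMultiplicity_pos hE).mpr h2
    omega
  · rw [rootMultiplicity_eq_zero hw]
    exact Nat.zero_le _

/-- the polynomial `lam X (p' q - p q') - p q` -/
noncomputable def ee (p q : ℂ[X]) (lam : ℂ) : ℂ[X] := C lam * (X * wr p q) - p * q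

theorem half (hcop : ∀ w : ℂ, q.eval w = 0 → p.eval w ≠ 0) (hnc : ∀ c : ℂ, p ≠ C c * q)
    (ha : a ≠ 0) (hsa : PS p q lam a) {c : ℂ} (hc : c ≠ 0)
    (hE : ee p q lam = C c * ((p - C a * q) * (p - C b * q)))
    (hq0 : q.eval 0 ≠ 0) (hdeg : p.natDegree = q.natDegree) (hn : 0 < q.natDegree)
    (hcab : c * (a - b) ≠ -1) : False := by
  set U : ℂ[X] := C c * p + C (1 - c * b) * q with hU
  have hEU : ee p q lam + (p - C a * q) * q = (p - C a * q) * U := by
    rw [hE, hU]
    simp only [C_sub, C_mul, C_1]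
    ring
  have hEv : ∀ w : ℂ, lam * w * (wr p q).eval w - a * q.eval w ^ 2 =
      (p.eval w - a * q.eval w) * U.eval w := by
    intro w
    have h1 := congrArg (eval w) hEU
    simp only [ee, eval_add, eval_sub, eval_mul, eval_C, eval_X] at h1
    linear_combination h1
  have hUe : ∀ w : ℂ, U.eval w = c * p.eval w + (1 - c * b) * q.eval w := by
    intro w
    simp [hU]
  -- no roots away from zero
  have hU1 : ∀ w : ℂ, w ≠ 0 → U.eval w ≠ 0 := by
    intro w hw h
    have hqw : q.eval w ≠ 0 := by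
      intro h1
      have h2 := hUe w
      rw [h, h1, mul_zero, add_zero] at h2
      rcases mul_eq_zero.mp h2.symm with h3 | h3
      · exact hc h3
      · exact hcop w h1 h3
    have h1 := hEv w
    rw [h, mul_zero] at h1
    have h2 := (hsa w hw hqw).mpr (sub_eq_zero.mp h1)
    have h3 := hUe w
    rw [h, h2] at h3
    have h4 : q.eval w * (c * (a - b) + 1) = 0 := by linear_combination -h3
    rcases mul_eq_zero.mp h4 with h5 | h5
    · exact hqw h5
    · exact hcab (by linear_combination h5)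
  have hU0 : U.eval 0 ≠ 0 := by
    intro h
    have h1 := hEv 0
    rw [h, mul_zero, mul_zero, zero_mul, zero_sub, neg_eq_zero] at h1
    rcases mul_eq_zero.mp h1 with h2 | h2
    · exact ha h2
    · exact hq0 (pow_eq_zero_iff two_ne_zero |>.mp h2)
  have hUdeg : U.degree = 0 := by
    by_contra hd
    obtain ⟨w, hw⟩ := IsAlgClosed.exists_root U hd
    rcases eq_or_ne w 0 with rfl | hw0
    · exact hU0 hw
    · exact hU1 w hw0 hw
  -- top coefficient
  set n := q.natDegree with hnn
  have hq' : q ≠ 0 := by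
    rintro rfl
    exact hq0 (by simp)
  have hqn : q.coeff n ≠ 0 := leadingCoeff_ne_zero.mpr hq'
  have hUn : U.coeff n = 0 := by
    apply coeff_eq_zero_of_degree_lt
    rw [hUdeg]
    exact_mod_cast hn
  have hUdegle : U.natDegree ≤ 0 := by
    rw [natDegree_le_iff_degree_le, hUdeg]
    exact le_rfl
  have h1 : (ee p q lam + (p - C a * q) * q).coeff (n + n) =
      ((p - C a * q) * U).coeff (n + n) := by rw [hEU]
  have hw1 : X * wr p q = (X * derivative p) * q - p * (X * derivative q) := by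
    rw [wr]; ring
  have hxp : (X * derivative p).natDegree ≤ n := (natDegree_X_mul_derivative_le p).trans hdeg.le
  have hxq : (X * derivative q).natDegree ≤ n := natDegree_X_mul_derivative_le q
  have hpa : (p - C a * q).natDegree ≤ n := by
    refine (natDegree_sub_le _ _).trans ?_
    rw [natDegree_C_mul ha, hdeg, max_self]
  rw [ee, hw1, coeff_add, coeff_sub, coeff_C_mul, coeff_sub,
    coeff_mul_add_eq_of_natDegree_le hxp le_rfl, coeff_mul_add_eq_of_natDegree_le hdeg.le hxq,
    coeff_mul_add_eq_of_natDegree_le hdeg.le le_rfl, coeff_mul_add_eq_of_natDegree_le hpa le_rfl,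
    coeff_mul_add_eq_of_natDegree_le hpa (hUdegle.trans (Nat.zero_le n)), hUn, mul_zero,
    coeff_X_mul_derivative, coeff_X_mul_derivative, coeff_sub, coeff_C_mul] at h1
  have h2 : a * q.coeff n ^ 2 = 0 := by linear_combination -h1
  rcases mul_eq_zero.mp h2 with h3 | h3
  · exact ha h3
  · exact hqn (pow_eq_zero_iff two_ne_zero |>.mp h3)

theorem main (hcop : ∀ w : ℂ, q.eval w = 0 → p.eval w ≠ 0) (hnc : ∀ c : ℂ, p ≠ C c * q)
    (hq : q ≠ 0) (hlam : lam ≠ 0) (ha : a ≠ 0) (hb : b ≠ 0) (hab : a ≠ b)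
    (hsa : PS p q lam a) (hsb : PS p q lam b) : ee p q lam = 0 := by
  by_contra hE
  set n := max p.natDegree q.natDegree with hn
  have key : ∀ a : ℂ, a ≠ 0 → PS p q lam a → (p - C a * q).natDegree = n ∧ p - C a * q ≠ 0 ∧
      ∀ w : ℂ, (p - C a * q).eval w = 0 → q.eval w ≠ 0 ∧ (derivative (p - C a * q)).eval w ≠ 0 ∧
        (ee p q lam).eval w = 0 := by
    intro a ha hsa
    refine ⟨inf_ne hcop hnc hq hlam ha hsa, fun h => hnc a (sub_eq_zero.mp h), fun w hw => ?_⟩
    have hpw : p.eval w = a * q.eval w := by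
      simp only [eval_sub, eval_mul, eval_C] at hw
      exact sub_eq_zero.mp hw
    have hqw : q.eval w ≠ 0 := by
      intro h
      rw [h, mul_zero] at hpw
      exact hcop w h hpw
    have hw0 : w ≠ 0 := by
      rintro rfl
      exact zero_ne hcop hnc hlam ha hsa hqw hpw
    have h1 := (hsa w hw0 hqw).mp hpw
    refine ⟨hqw, ?_, ?_⟩
    · intro h2
      simp only [derivative_sub, derivative_C_mul, eval_sub, eval_mul, eval_C] at h2
      simp only [wr, eval_sub, eval_mul] at h1
      rw [hpw, sub_eq_zero.mp h2] at h1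
      have h3 : a * q.eval w ^ 2 = 0 := by linear_combination -h1
      rcases mul_eq_zero.mp h3 with h4 | h4
      · exact ha h4
      · exact hqw (pow_eq_zero_iff two_ne_zero |>.mp h4)
    · simp only [ee, eval_sub, eval_mul, eval_C, eval_X]
      rw [hpw]
      linear_combination h1
  obtain ⟨hda, hna, hra⟩ := key a ha hsa
  obtain ⟨hdb, hnb, hrb⟩ := key b hb hsb
  have hdvd : (p - C a * q) * (p - C b * q) ∣ ee p q lam := by
    refine simple_dvd (mul_ne_zero hna hnb) fun w hw => ?_
    rw [eval_mul] at hw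
    rw [derivative_mul, eval_add, eval_mul, eval_mul]
    have hnot : ¬ ((p - C a * q).eval w = 0 ∧ (p - C b * q).eval w = 0) := by
      rintro ⟨h1, h2⟩
      have h3 := (hra w h1).1
      simp only [eval_sub, eval_mul, eval_C] at h1 h2
      have h4 : (a - b) * q.eval w = 0 := by linear_combination h2 - h1
      rcases mul_eq_zero.mp h4 with h5 | h5
      · exact hab (sub_eq_zero.mp h5)
      · exact h3 h5
    rcases mul_eq_zero.mp hw with h1 | h1
    · obtain ⟨-, h2, h3⟩ := hra w h1
      refine ⟨?_, h3⟩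
      rw [h1, zero_mul, add_zero]
      exact mul_ne_zero h2 fun h => hnot ⟨h1, h⟩
    · obtain ⟨-, h2, h3⟩ := hrb w h1
      refine ⟨?_, h3⟩
      rw [h1, mul_zero, zero_add]
      exact mul_ne_zero (fun h => hnot ⟨h, h1⟩) h2
  obtain ⟨K, hK⟩ := hdvd
  have hK0 : K ≠ 0 := by
    rintro rfl
    exact hE (by rw [hK, mul_zero])
  have hEdeg : (ee p q lam).natDegree ≤ p.natDegree + q.natDegree := by
    have hw1 : X * wr p q = (X * derivative p) * q - p * (X * derivative q) := by
      rw [wr]; ring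
    rw [ee, hw1]
    refine (natDegree_sub_le _ _).trans (max_le ?_ natDegree_mul_le)
    refine (natDegree_C_mul_le _ _).trans ?_
    refine (natDegree_sub_le _ _).trans (max_le ?_ ?_)
    · exact natDegree_mul_le.trans (Nat.add_le_add_right (natDegree_X_mul_derivative_le p) _)
    · exact natDegree_mul_le.trans (Nat.add_le_add_left (natDegree_X_mul_derivative_le q) _)
  have hdegs : n + n + K.natDegree = (ee p q lam).natDegree := by
    rw [hK, natDegree_mul (mul_ne_zero hna hnb) hK0, natDegree_mul hna hnb, hda, hdb]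
  have h1 : p.natDegree ≤ n := le_max_left _ _
  have h2 : q.natDegree ≤ n := le_max_right _ _
  have hK1 : K.natDegree = 0 := by omega
  have hpn : p.natDegree = n := by omega
  have hqn : q.natDegree = n := by omega
  have hnpos : 0 < n := by
    rcases Nat.eq_zero_or_pos n with h0 | h0
    · exfalso
      rw [h0] at hpn hqn
      rw [eq_C_of_natDegree_eq_zero hpn, eq_C_of_natDegree_eq_zero hqn] at hnc
      have hq1 : q.coeff 0 ≠ 0 := by
        intro h
        apply hq
        rw [eq_C_of_natDegree_eq_zero hqn, h, C_0]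
      apply hnc (p.coeff 0 / q.coeff 0)
      rw [← C_mul, div_mul_cancel₀ _ hq1]
    · exact h0
  obtain ⟨c, hc⟩ : ∃ c : ℂ, K = C c := ⟨_, eq_C_of_natDegree_eq_zero hK1⟩
  have hc0 : c ≠ 0 := by
    rintro rfl
    exact hK0 (by rw [hc, C_0])
  have hEc : ee p q lam = C c * ((p - C a * q) * (p - C b * q)) := by
    rw [hK, hc, mul_comm]
  have hEc' : ee p q lam = C c * ((p - C b * q) * (p - C a * q)) := by
    rw [hEc]; ring
  have hq0 : q.eval 0 ≠ 0 := by
    intro h
    have h3 := congrArg (eval 0) hEc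
    simp only [ee, eval_sub, eval_mul, eval_C, eval_X, h, mul_zero, zero_mul, sub_zero] at h3
    rcases mul_eq_zero.mp h3.symm with h4 | h4
    · exact hc0 h4
    · exact hcop 0 h (mul_self_eq_zero.mp h4)
  by_cases hcab : c * (a - b) = -1
  · refine half (a := b) (b := a) hcop hnc hb hsb hc0 hEc' hq0 (by omega) (by omega) ?_
    intro h
    have h3 : (2 : ℂ) = 0 := by linear_combination h + hcab
    norm_num at h3
  · exact half hcop hnc ha hsa hc0 hEc hq0 (by omega) (by omega) hcab

end Q196.EX
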