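import Pool.Agent.Q196.EX.Petal

/-!
# A parabolic petal forces a free critical point
-/

set_option autoImplicit false

open Polynomial Topology Set Filter Bornology

namespace Q196.EX

variable {N M : ℂ[X]}

theorem Good.exists_trap (h : Good N M) {z₁ : ℂ} (hz : N.eval (Complex.exp z₁) = 0) :
    ∃ r : ℝ, 0 < r ∧ ∀ z : ℂ, ‖z - z₁‖ ≤ r → ‖fmap N M z - z₁‖ ≤ ‖z - z₁‖ := by
  have h1 := (hasStrictDerivAt_fmap N M (h.M_of_N hz)).hasDerivAt
  rw [h.fixed _ (Complex.exp_ne_zero _) hz] at h1
  have hfix : fmap N M z₁ = z₁ := fmap_of_N hz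
  have h3 := h1.isLittleO.bound (c := 1) one_pos
  rw [Metric.eventually_nhds_iff] at h3
  obtain ⟨ε, hε, h4⟩ := h3
  refine ⟨ε / 2, by positivity, fun z hz2 => ?_⟩
  have h5 := h4 (y := z) (by rw [dist_eq_norm]; linarith)
  rw [hfix] at h5
  simpa using h5

theorem Good.false_of_zero (h : Good N M) {z₁ : ℂ} (hz₁ : N.eval (Complex.exp z₁) = 0) :
    False := by
  obtain ⟨r, hr, htrap⟩ := h.exists_trap hz₁
  obtain ⟨R₁, ψ, φ, hR₁, hψd, hφc, hφre, hφn, hψ, hψφ⟩ := h.exists_petal (‖z₁‖ + r)
  set H : Set ℂ := {w : ℂ | R₁ < w.re} with hH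
  have hHo : IsOpen H := isOpen_lt continuous_const Complex.continuous_re
  have hHc : Convex ℝ H := convex_halfSpace_re_gt R₁
  have hφH : MapsTo φ H H := by
    intro w hw
    have := hφre w hw
    simp only [hH, mem_ofPred_eq] at hw ⊢
    linarith
  set w₀ : ℂ := ((R₁ + 1 : ℝ) : ℂ) with hw₀
  have hw₀H : w₀ ∈ H := by
    simp only [hH, mem_ofPred_eq, hw₀, Complex.ofReal_re]
    linarith
  -- the trap is invariant under iteration
  have htrapk : ∀ k : ℕ, ∀ z : ℂ, ‖z - z₁‖ ≤ r → ‖(fmap N M)^[k] z - z₁‖ ≤ r := by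
    intro k
    induction k with
    | zero => intro z hz; exact hz
    | succ k ih =>
      intro z hz
      rw [Function.iterate_succ_apply]
      exact ih _ ((htrap z hz).trans hz)
  have hit : ∀ j : ℕ, ∀ w ∈ H, φ^[j] w ∈ H := by
    intro j
    induction j with
    | zero => intro w hw; exact hw
    | succ j ihj => intro w hw; rw [Function.iterate_succ_apply]; exact ihj _ (hφH hw)
  have hgrow : ∀ k : ℕ, R₁ + 1 + k / 2 ≤ (φ^[k] w₀).re := by
    intro k
    induction k with
    | zero => simp [hw₀]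
    | succ k ih =>
      rw [Function.iterate_succ_apply']
      have h1 := hφre _ (hit k w₀ hw₀H)
      push_cast
      linarith
  -- the two values
  have hne : (ψ (φ w₀) - z₁)⁻¹ ≠ (ψ w₀ - z₁)⁻¹ := by
    intro h0
    have h1 := inv_injective h0
    have h2 : ψ (φ w₀) = ψ w₀ := by linear_combination h1
    rw [← hψφ w₀ hw₀H, fmap, tfun] at h2
    have h3 : N.eval (Complex.exp (ψ w₀)) / M.eval (Complex.exp (ψ w₀)) = 0 := by
      linear_combination -h2
    rcases div_eq_zero_iff.mp h3 with h4 | h4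
    · exact (hψ w₀ hw₀H).2.1 h4
    · exact (hψ w₀ hw₀H).2.2 h4
  set d₀ : ℝ := dist (ψ (φ w₀) - z₁)⁻¹ (ψ w₀ - z₁)⁻¹ with hd₀
  have hd₀pos : 0 < d₀ := dist_pos.mpr hne
  have hbound : ∀ k : ℕ, 2 ≤ k → d₀ ≤ 2 * r⁻¹ / (1 + k / 2) * (3 / 2) := by
    intro k hk
    obtain ⟨G, hGd, hGM, hGN, hGφ, hGk, hGk'⟩ := h.exists_lifts hHo hHc hψd hφc hφH
      (fun w hw => (hψ w hw).2.1) (fun w hw => (hψ w hw).2.2) hψφ hw₀H k
    have hGz : ∀ w ∈ H, r < ‖G w - z₁‖ := by
      intro w hw
      by_contra hlt
      push Not at hlt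
      have h1 := htrapk k _ hlt
      rw [hGk w hw] at h1
      have h2 := (hψ w hw).1
      have h2' : ‖z₁‖ + r < ‖ψ w‖ := by
        have := Complex.abs_re_le_norm (ψ w)
        rw [abs_le] at this
        linarith [this.1]
      have h3 : ‖ψ w‖ ≤ ‖ψ w - z₁‖ + ‖z₁‖ := by
        calc ‖ψ w‖ = ‖(ψ w - z₁) + z₁‖ := by ring_nf
          _ ≤ _ := norm_add_le _ _
      linarith
    have hGne : ∀ w ∈ H, G w - z₁ ≠ 0 := by
      intro w hw h0
      have := hGz w hw
      rw [h0, norm_zero] at this
      linarith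
    set g : ℂ → ℂ := fun w => (G w - z₁)⁻¹ with hg
    have hgd : DifferentiableOn ℂ g H := by
      exact (hGd.sub_const z₁).inv hGne
    have hgb : ∀ w ∈ H, ‖g w‖ ≤ r⁻¹ := by
      intro w hw
      rw [hg, norm_inv]
      exact inv_anti₀ hr (hGz w hw).le
    set c : ℂ := φ^[k] w₀ with hc
    have hcH : c ∈ H := hit k w₀ hw₀H
    set ρ : ℝ := 1 + k / 2 with hρ
    have hρ2 : 2 ≤ ρ := by
      rw [hρ]
      have : (2 : ℝ) ≤ k := by exact_mod_cast hk
      linarith
    have hball : Metric.ball c ρ ⊆ H := by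
      intro u hu
      rw [Metric.mem_ball, dist_eq_norm] at hu
      have h1 := (Complex.abs_re_le_norm (u - c)).trans_lt hu
      rw [Complex.sub_re, abs_lt] at h1
      have h2 := hgrow k
      simp only [hH, mem_ofPred_eq]
      have h3 := h1.1
      rw [hc] at h3
      linarith
    have hmaps : MapsTo g (Metric.ball c ρ) (Metric.closedBall (g c) (2 * r⁻¹)) := by
      intro u hu
      rw [Metric.mem_closedBall, dist_eq_norm]
      calc ‖g u - g c‖ ≤ ‖g u‖ + ‖g c‖ := norm_sub_le _ _
        _ ≤ r⁻¹ + r⁻¹ := add_le_add (hgb u (hball hu)) (hgb c hcH)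
        _ = 2 * r⁻¹ := by ring
    have hφc' : dist (φ c) c ≤ 3 / 2 := by
      rw [dist_eq_norm]
      exact hφn c hcH
    have hmem : φ c ∈ Metric.ball c ρ := by
      rw [Metric.mem_ball]
      linarith
    have h1 := Complex.dist_le_div_mul_dist_of_mapsTo_ball (hgd.mono hball) hmaps hmem
    have hgc : g c = (ψ w₀ - z₁)⁻¹ := by
      simp only [hg]
      rw [hc, hGk' w₀ hw₀H]
    have hgφ : g (φ c) = (ψ (φ w₀) - z₁)⁻¹ := by
      simp only [hg]
      have : φ c = φ^[k] (φ w₀) := by
        rw [hc, ← Function.iterate_succ_apply' φ k w₀, Function.iterate_succ_apply]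
      rw [this, hGk' (φ w₀) (hφH hw₀H)]
    rw [hgc, hgφ] at h1
    refine h1.trans ?_
    exact mul_le_mul_of_nonneg_left hφc' (by positivity)
  -- let `k → ∞`
  have hlim : Tendsto (fun k : ℕ => 2 * r⁻¹ / (1 + (k : ℝ) / 2) * (3 / 2)) atTop (𝓝 0) := by
    have h1 : Tendsto (fun k : ℕ => 1 + (k : ℝ) / 2) atTop atTop :=
      tendsto_atTop_add_const_left _ _
        (tendsto_natCast_atTop_atTop.atTop_div_const (by norm_num))
    have h2 := (h1.const_div_atTop (2 * r⁻¹)).mul_const (3 / 2)
    rwa [zero_mul] at h2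
  have h3 : d₀ ≤ 0 := by
    refine ge_of_tendsto hlim ?_
    filter_upwards [eventually_ge_atTop 2] with k hk
    exact hbound k hk
  linarith

theorem degree_anum' (hM0 : M ≠ 0) : (M ^ 2).degree ≤ (anum N M).degree := by
  rcases lt_or_ge M.natDegree N.natDegree with hlt | hge
  · exact degree_anum hlt
  set m := M.natDegree with hm
  have key : ∀ P : ℂ[X], P.natDegree ≤ m →
      (X * derivative P).natDegree ≤ m ∧ (X * derivative P).coeff m = P.coeff m * m := by
    intro P hP
    rcases Nat.eq_zero_or_pos m with h0 | h0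
    · have : derivative P = 0 := derivative_of_natDegree_zero (by omega)
      rw [this, mul_zero, natDegree_zero, h0]
      simp
    · obtain ⟨k, hk⟩ : ∃ k, m = k + 1 := ⟨m - 1, by omega⟩
      constructor
      · refine natDegree_mul_le.trans ?_
        rw [natDegree_X]
        have := natDegree_derivative_le P
        omega
      · rw [hk, coeff_X_mul, coeff_derivative]
        push_cast
        ring
  obtain ⟨hN1, hN2⟩ := key N hge
  obtain ⟨hM1, hM2⟩ := key M le_rfl
  have hA : anum N M = M * M - (X * derivative N) * M + N * (X * derivative M) := by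
    rw [anum]; ring
  have h3 : (M * M).coeff (m + m) = M.coeff m * M.coeff m :=
    coeff_mul_add_eq_of_natDegree_le le_rfl le_rfl
  have h4 : ((X * derivative N) * M).coeff (m + m) = N.coeff m * m * M.coeff m := by
    rw [coeff_mul_add_eq_of_natDegree_le hN1 le_rfl, hN2]
  have h5 : (N * (X * derivative M)).coeff (m + m) = N.coeff m * (M.coeff m * m) := by
    rw [coeff_mul_add_eq_of_natDegree_le hge hM1, hM2]
  have h8 : M.coeff m ≠ 0 := by rw [hm]; exact leadingCoeff_ne_zero.mpr hM0
  have h6 : (anum N M).coeff (m + m) ≠ 0 := by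
    rw [hA, coeff_add, coeff_sub, h3, h4, h5]
    have h10 : M.coeff m * M.coeff m - N.coeff m * m * M.coeff m + N.coeff m * (M.coeff m * m) =
        M.coeff m * M.coeff m := by ring
    rw [h10]
    exact mul_ne_zero h8 h8
  have h7 := le_degree_of_ne_zero h6
  refine le_trans ?_ h7
  refine (degree_pow_le _ _).trans ?_
  rw [degree_eq_natDegree hM0, ← hm, two_nsmul]
  push_cast
  exact le_rfl

/-- If `N` has no zero besides `0` there is a free critical point for degree reasons. -/
theorem Good.exists_zero (h : Good N M) : ∃ w : ℂ, w ≠ 0 ∧ N.eval w = 0 := by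
  by_contra hcon
  push Not at hcon
  have hM : M ≠ 0 := by
    rintro rfl
    exact h.M0 (by simp)
  set A := anum N M with hA
  -- roots of `A` are roots of `M`
  have hAroot : ∀ w : ℂ, A.eval w = 0 → M.eval w = 0 ∧ w ≠ 0 := by
    intro w hw
    have hw0 : w ≠ 0 := by
      rintro rfl
      rw [hA, anum] at hw
      simp only [eval_sub, eval_mul, eval_pow, eval_X, zero_mul, sub_zero] at hw
      exact h.M0 (pow_eq_zero_iff two_ne_zero |>.mp hw)
    refine ⟨?_, hw0⟩
    by_contra hMw
    rw [← yfun_mul hMw] at hw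
    rcases mul_eq_zero.mp hw with h1 | h1
    · exact hMw (pow_eq_zero_iff two_ne_zero |>.mp h1)
    · exact hcon w hw0 (h.crit w hw0 hMw h1)
  -- `N = ν X ^ s`
  obtain ⟨m, N1, hm, hN, hN1⟩ := h.exists_local
  have hN1deg : N1.degree = 0 := by
    by_contra hd
    obtain ⟨w, hw⟩ := IsAlgClosed.exists_root N1 hd
    have hw0 : w ≠ 0 := by
      rintro rfl
      exact hN1 hw
    refine hcon w hw0 ?_
    rw [hN, eval_mul, hw, mul_zero]
  obtain ⟨ν, hν⟩ : ∃ ν : ℂ, N1 = C ν := ⟨_, eq_C_of_degree_eq_zero hN1deg⟩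
  have hν0 : ν ≠ 0 := by
    rintro rfl
    rw [hν] at hN1
    exact hN1 (by simp)
  have hNX : N = C ν * X ^ m := by rw [hN, hν, mul_comm]
  have hXN : X * derivative N = C (m : ℂ) * N := by
    obtain ⟨k, rfl⟩ : ∃ k, m = k + 1 := ⟨m - 1, by omega⟩
    rw [hNX, derivative_C_mul, derivative_X_pow]
    simp only [Nat.add_sub_cancel]
    ring
  have hA2 : A = M ^ 2 - C (m : ℂ) * N * M + X * N * derivative M := by
    have : A = M ^ 2 - (X * derivative N) * M + X * N * derivative M := by
      rw [hA, anum]; ring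
    rw [this, hXN]
  -- degrees
  have hNdeg : N.natDegree = m := by
    rw [hNX, natDegree_C_mul_X_pow _ _ hν0]
  have hAne : A ≠ 0 := by
    intro h0
    have := hAroot 0 (by rw [h0]; simp)
    exact this.2 rfl
  have hdegA : (M ^ 2).degree ≤ A.degree := degree_anum' hM
  have hMd : derivative M ≠ 0 := by
    intro h0
    obtain ⟨μ, hμ⟩ : ∃ μ : ℂ, M = C μ := ⟨_, eq_C_of_derivative_eq_zero h0⟩
    have hμ0 : μ ≠ 0 := by
      rintro rfl
      exact hM (by rw [hμ, C_0])
    have hdA : A.degree = 0 := by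
      by_contra hd
      obtain ⟨w, hw⟩ := IsAlgClosed.exists_root A hd
      have := (hAroot w hw).1
      rw [hμ, eval_C] at this
      exact hμ0 this
    obtain ⟨a, ha⟩ : ∃ a : ℂ, A = C a := ⟨_, eq_C_of_degree_eq_zero hdA⟩
    have h1 : C ((m : ℂ) * ν * μ) * X ^ m = C (μ ^ 2 - a) := by
      have h2 := hA2
      rw [ha, h0, mul_zero, add_zero, hNX, hμ] at h2
      have h3 : C ((m : ℂ) * ν * μ) * X ^ m = C (m : ℂ) * (C ν * X ^ m) * C μ := by
        simp only [C_mul]
        ring
      rw [h3]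
      have h4 : C (m : ℂ) * (C ν * X ^ m) * C μ = C μ ^ 2 - C a := by rw [h2]; ring
      rw [h4]
      simp only [C_sub, C_pow]
    have h2 := congrArg natDegree h1
    rw [natDegree_C, natDegree_C_mul_X_pow] at h2
    · omega
    · refine mul_ne_zero (mul_ne_zero ?_ hν0) hμ0
      exact_mod_cast hm.ne'
  have hdvd : A ∣ derivative M := by
    refine (IsAlgClosed.splits A).dvd_of_roots_le_roots hAne ?_
    rw [Multiset.le_iff_count]
    intro w
    rw [count_roots, count_roots]
    by_cases hw : A.eval w = 0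
    · obtain ⟨hMw, hw0⟩ := hAroot w hw
      have hroot : M.IsRoot w := hMw
      rw [derivative_rootMultiplicity_of_root hroot]
      by_contra hlt
      push Not at hlt
      set k := M.rootMultiplicity w with hk
      have hkpos : 0 < k := (rootMultiplicity_pos hM).mpr hroot
      have h1 : (X - C w) ^ k ∣ A := by
        rw [← le_rootMultiplicity_iff hAne]
        omega
      have h2 : (X - C w) ^ k ∣ M := pow_rootMultiplicity_dvd M w
      have h3 : (X - C w) ^ k ∣ (X * N) * derivative M := by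
        have h4 : (X * N) * derivative M = A - M * (M - C (m : ℂ) * N) := by
          rw [hA2]; ring
        rw [h4]
        exact dvd_sub h1 (h2.mul_right _)
      have hcop : IsCoprime ((X - C w) ^ k) (X * N) := by
        refine IsCoprime.pow_left ?_
        refine (irreducible_X_sub_C w).coprime_iff_not_dvd.mpr ?_
        rw [dvd_iff_isRoot, IsRoot.def, eval_mul, eval_X]
        exact mul_ne_zero hw0 (hcon w hw0)
      have h5 : (X - C w) ^ k ∣ derivative M := hcop.dvd_of_dvd_mul_left h3
      rw [← le_rootMultiplicity_iff hMd, derivative_rootMultiplicity_of_root hroot] at h5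
      omega
    · have : A.rootMultiplicity w = 0 := rootMultiplicity_eq_zero hw
      rw [this]
      exact Nat.zero_le _
  have h1 := degree_le_of_dvd hdvd hMd
  have h2 := degree_derivative_lt hM
  have h3 : M.degree ≤ (M ^ 2).degree := by
    rw [pow_two, degree_mul]
    exact le_add_of_nonneg_left (zero_le_degree_iff.mpr hM)
  exact absurd (hdegA.trans h1) (not_le.mpr (h2.trans_le h3))

/-- There is no such pair. -/
theorem Good.false (h : Good N M) : False := by
  obtain ⟨w, hw0, hw⟩ := h.exists_zero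
  refine h.false_of_zero (z₁ := Complex.log w) ?_
  rw [Complex.exp_log hw0]
  exact hw

end Q196.EX
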