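import Pool.Agent.Q196.EX.Map

/-!
# Lifts through `F(ζ) = ζ - T(exp ζ)`
-/

set_option autoImplicit false

open Polynomial Topology Set Filter Bornology unitInterval

namespace Q196.EX

variable {N M : ℂ[X]}

/-- points with regular value -/
def omega (N M : ℂ[X]) : Set ℂ :=
  {ζ | M.eval (Complex.exp ζ) ≠ 0 ∧ N.eval (Complex.exp (fmap N M ζ)) ≠ 0}

noncomputable def pmap (N M : ℂ[X]) (ζ : omega N M) : ℂ := fmap N M ζ.1

theorem isOpen_omega (N M : ℂ[X]) : IsOpen (omega N M) := by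
  have h1 : IsOpen {ζ : ℂ | M.eval (Complex.exp ζ) ≠ 0} :=
    isOpen_ne_fun (M.continuous.comp Complex.continuous_exp) continuous_const
  have h2 : ContinuousOn (fmap N M) {ζ : ℂ | M.eval (Complex.exp ζ) ≠ 0} := fun ζ hζ =>
    (hasStrictDerivAt_fmap N M hζ).hasDerivAt.continuousAt.continuousWithinAt
  have h3 : IsOpen {ζ : ℂ | N.eval (Complex.exp ζ) ≠ 0} :=
    isOpen_ne_fun (N.continuous.comp Complex.continuous_exp) continuous_const
  exact h2.isOpen_inter_preimage h1 h3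

theorem Good.yfun_ne_zero (h : Good N M) {ζ : ℂ} (hζ : ζ ∈ omega N M) :
    yfun N M (Complex.exp ζ) ≠ 0 := by
  intro h0
  have h1 := h.crit _ (Complex.exp_ne_zero ζ) hζ.1 h0
  apply hζ.2
  rw [fmap_of_N h1]
  exact h1

theorem Good.isLocalHomeomorph (h : Good N M) : IsLocalHomeomorph (pmap N M) := by
  intro z
  have h1 := hasStrictDerivAt_fmap N M z.2.1
  have h3 := h1.hasStrictFDerivAt_equiv (h.yfun_ne_zero z.2)
  have hemb : IsOpenEmbedding (Subtype.val : omega N M → ℂ) :=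
    (isOpen_omega N M).isOpenEmbedding_subtypeVal
  have : Nonempty (omega N M) := ⟨z⟩
  refine ⟨(hemb.toOpenPartialHomeomorph _).trans (h3.toOpenPartialHomeomorph _), ?_, ?_⟩
  · simp only [OpenPartialHomeomorph.trans_source, IsOpenEmbedding.toOpenPartialHomeomorph_source,
      univ_inter, mem_preimage]
    exact h3.mem_toOpenPartialHomeomorph_source
  · funext w
    rfl

theorem hasDerivAt_lift {F : ℂ → ℂ} {g c : ℝ → ℂ} {s : ℝ} {F' c' : ℂ}
    (hF : HasStrictDerivAt F F' (g s)) (hF' : F' ≠ 0) (hg : ContinuousAt g s)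
    (hc : HasDerivAt c c' s) (heq : ∀ᶠ y in 𝓝 s, F (g y) = c y) :
    HasDerivAt g (F'⁻¹ * c') s := by
  have h1 := hF.eventually_left_inverse hF'
  have h2 : ∀ᶠ y in 𝓝 s, hF.localInverse F F' (g s) hF' (F (g y)) = g y :=
    hg.eventually h1
  have h3 : g =ᶠ[𝓝 s] fun y => hF.localInverse F F' (g s) hF' (c y) := by
    filter_upwards [h2, heq] with y hy1 hy2
    rw [← hy2, hy1]
  have h4 : HasDerivAt (hF.localInverse F F' (g s) hF') F'⁻¹ (c s) := by
    have h5 := (hF.to_localInverse hF').hasDerivAt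
    rwa [heq.self_of_nhds] at h5
  exact (HasDerivAt.comp s h4 hc).congr_of_eventuallyEq h3

theorem Good.exists_path (h : Good N M) {H : Set ℂ} (hHo : IsOpen H) (hHc : Convex ℝ H)
    {G : ℂ → ℂ} (hG : DifferentiableOn ℂ G H) (hGN : ∀ v ∈ H, N.eval (Complex.exp (G v)) ≠ 0)
    {v₁ v : ℂ} (hv₁ : v₁ ∈ H) (hv : v ∈ H) (e₁ : omega N M) (he : pmap N M e₁ = G v₁) :
    ∃ Γ : C(I, omega N M), Γ 0 = e₁ ∧
      ∀ t : I, pmap N M (Γ t) = G (AffineMap.lineMap v₁ v (t : ℝ)) := by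
  set sg : ℝ → ℂ := fun s => AffineMap.lineMap v₁ v s with hsg
  have hsgd : ∀ s : ℝ, HasDerivAt sg (v - v₁) s := fun s => AffineMap.hasDerivAt_lineMap
  have hsgc : Continuous sg := by
    rw [continuous_iff_continuousAt]
    exact fun s => (hsgd s).continuousAt
  have hsgH : ∀ s ∈ Icc (0 : ℝ) 1, sg s ∈ H := fun s hs => hHc.lineMap_mem hv₁ hv hs
  set c : ℝ → ℂ := fun s => G (sg s) with hc
  have hGd : ∀ x ∈ H, HasDerivAt G (deriv G x) x := fun x hx =>
    (hG.differentiableAt (hHo.mem_nhds hx)).hasDerivAt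
  have hcd : ∀ s ∈ Icc (0 : ℝ) 1, HasDerivAt c (deriv G (sg s) * (v - v₁)) s := fun s hs =>
    HasDerivAt.comp s (hGd _ (hsgH s hs)) (hsgd s)
  have hcc : ContinuousOn c (Icc 0 1) := fun s hs => (hcd s hs).continuousAt.continuousWithinAt
  have hdc : ContinuousOn (fun s => deriv G (sg s) * (v - v₁)) (Icc 0 1) := by
    refine ContinuousOn.mul ?_ continuousOn_const
    exact (hG.deriv hHo).continuousOn.comp hsgc.continuousOn hsgH
  obtain ⟨L, hL⟩ := isCompact_Icc.exists_bound_of_continuousOn hdc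
  have hL0 : 0 ≤ L := (norm_nonneg _).trans (hL 0 ⟨le_rfl, zero_le_one⟩)
  set K : Set ℂ := c '' Icc 0 1 with hK
  have hKc : IsCompact K := isCompact_Icc.image_of_continuousOn hcc
  have hKN : ∀ y ∈ K, N.eval (Complex.exp y) ≠ 0 := by
    rintro _ ⟨s, hs, rfl⟩
    exact hGN _ (hsgH s hs)
  obtain ⟨δ, hδ, hlow⟩ := h.exists_lower_bound hKc hKN
  let γ : C(I, ℂ) := ⟨fun t => c t, by
    have := continuousOn_iff_continuous_domRestrict.mp hcc
    exact this⟩
  have hsep : IsSeparatedMap (pmap N M) := T2Space.isSeparatedMap _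
  have h0 : pmap N M e₁ = γ 0 := by
    simp only [γ, ContinuousMap.coe_mk, hc, hsg, Icc.coe_zero, AffineMap.lineMap_apply_zero]
    exact he
  obtain ⟨Γ, hΓ0, hΓ⟩ := exists_path_lift h.isLocalHomeomorph hsep γ e₁ h0 (by
    intro t ht g hgc hgl
    have ht0 : (0 : ℝ) < t := by exact_mod_cast ht
    have ht1 : (t : ℝ) ≤ 1 := t.2.2
    set gr : ℝ → ℂ := fun s => (g (projIcc 0 1 zero_le_one s)).1 with hgr
    have hproj : ∀ s : ℝ, ∀ hs : s ∈ Icc (0 : ℝ) 1, projIcc 0 1 zero_le_one s = ⟨s, hs⟩ :=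
      fun s hs => projIcc_of_mem _ hs
    have hmem : ∀ s ∈ Ioo (0 : ℝ) t, s ∈ Icc (0 : ℝ) 1 := fun s hs =>
      ⟨hs.1.le, hs.2.le.trans ht1⟩
    have hlt : ∀ s ∈ Ioo (0 : ℝ) t, projIcc 0 1 zero_le_one s < t := by
      intro s hs
      rw [hproj s (hmem s hs)]
      exact hs.2
    have hval : ∀ s ∈ Ioo (0 : ℝ) t, fmap N M (gr s) = c s := by
      intro s hs
      have h1 := hgl _ (hlt s hs)
      simp only [pmap, γ, ContinuousMap.coe_mk] at h1
      rw [hgr]
      simp only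
      rw [h1, hproj s (hmem s hs)]
    have hgrM : ∀ s, M.eval (Complex.exp (gr s)) ≠ 0 := fun s => (g _).2.1
    have hgrc : ∀ s ∈ Ioo (0 : ℝ) t, ContinuousAt gr s := by
      intro s hs
      have h1 : ContinuousAt g (projIcc 0 1 zero_le_one s) :=
        hgc.continuousAt (Iio_mem_nhds (hlt s hs))
      have h2 : ContinuousAt (fun s : ℝ => g (projIcc 0 1 zero_le_one s)) s :=
        ContinuousAt.comp (f := fun s : ℝ => projIcc (0 : ℝ) 1 zero_le_one s) h1
          continuous_projIcc.continuousAt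
      exact continuous_subtype_val.continuousAt.comp h2
    have hgrd : ∀ s ∈ Ioo (0 : ℝ) t, HasDerivAt gr
        ((yfun N M (Complex.exp (gr s)))⁻¹ * (deriv G (sg s) * (v - v₁))) s := by
      intro s hs
      refine hasDerivAt_lift (hasStrictDerivAt_fmap N M (hgrM s)) (h.yfun_ne_zero (g _).2)
        (hgrc s hs) (hcd s (hmem s hs)) ?_
      filter_upwards [Ioo_mem_nhds hs.1 hs.2] with y hy
      exact hval y hy
    set Cst : NNReal := ⟨δ⁻¹ * L, by positivity⟩ with hCst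
    have hlip : LipschitzOnWith Cst gr (Ioo (0 : ℝ) t) := by
      refine (convex_Ioo 0 (t : ℝ)).lipschitzOnWith_of_nnnorm_hasDerivWithin_le
        (fun s hs => (hgrd s hs).hasDerivWithinAt) ?_
      intro s hs
      rw [← NNReal.coe_le_coe, coe_nnnorm, norm_mul, norm_inv]
      simp only [hCst, NNReal.coe_mk]
      refine mul_le_mul ?_ (hL s (hmem s hs)) (norm_nonneg _) (by positivity)
      refine inv_anti₀ hδ (hlow _ (hgrM s) ?_)
      rw [hval s hs]
      exact ⟨s, hmem s hs, rfl⟩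
    obtain ⟨gx, hgx, hEq⟩ := hlip.extend_finite_dimension
    have hev : ∀ᶠ s in 𝓝[<] (t : ℝ), s ∈ Ioo (0 : ℝ) t := Ioo_mem_nhdsLT ht0
    have hlimg : Tendsto gr (𝓝[<] (t : ℝ)) (𝓝 (gx t)) := by
      refine (hgx.continuous.continuousWithinAt (s := Iio (t : ℝ)) (x := t)).tendsto.congr' ?_
      filter_upwards [hev] with s hs
      exact (hEq hs).symm
    have hlimc : Tendsto c (𝓝[<] (t : ℝ)) (𝓝 (c t)) :=
      (hcd t t.2).continuousAt.continuousWithinAt
    have hNB : (𝓝[<] (t : ℝ)).NeBot := inferInstance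
    set z : ℂ := gx t with hz
    have hexp : Tendsto (fun s => Complex.exp (gr s)) (𝓝[<] (t : ℝ)) (𝓝 (Complex.exp z)) :=
      (Complex.continuous_exp.tendsto z).comp hlimg
    have hid : (z - c t) * M.eval (Complex.exp z) = N.eval (Complex.exp z) := by
      have h1 : Tendsto (fun s => (gr s - c s) * M.eval (Complex.exp (gr s))) (𝓝[<] (t : ℝ))
          (𝓝 ((z - c t) * M.eval (Complex.exp z))) :=
        (hlimg.sub hlimc).mul ((M.continuous.tendsto _).comp hexp)
      have h2 : Tendsto (fun s => N.eval (Complex.exp (gr s))) (𝓝[<] (t : ℝ))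
          (𝓝 (N.eval (Complex.exp z))) := (N.continuous.tendsto _).comp hexp
      refine tendsto_nhds_unique (h1.congr' ?_) h2
      filter_upwards [hev] with s hs
      have h3 := hval s hs
      rw [← h3, fmap, tfun]
      have := hgrM s
      field_simp
      ring
    have hMz : M.eval (Complex.exp z) ≠ 0 := by
      intro h1
      rw [h1, mul_zero] at hid
      exact h.cop _ h1 hid.symm
    have hFz : fmap N M z = c t := by
      rw [fmap, tfun, ← hid]
      field_simp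
      ring
    have hz' : z ∈ omega N M := by
      refine ⟨hMz, ?_⟩
      rw [hFz]
      exact hKN _ ⟨t, t.2, rfl⟩
    refine ⟨⟨z, hz'⟩, ?_⟩
    rw [tendsto_subtype_rng]
    have h1 : Tendsto (fun x : I => (x : ℝ)) (𝓝[<] t) (𝓝[<] (t : ℝ)) := by
      rw [tendsto_nhdsWithin_iff]
      refine ⟨continuous_subtype_val.continuousAt.continuousWithinAt, ?_⟩
      filter_upwards [self_mem_nhdsWithin] with x hx
      exact hx
    refine (hlimg.comp h1).congr fun x => ?_
    simp only [Function.comp_apply, hgr]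
    rw [hproj x x.2])
  exact ⟨Γ, hΓ0, hΓ⟩

/-- Lifting of functions on convex open sets, with uniqueness. -/
theorem Good.lift_step (h : Good N M) {H : Set ℂ} (hHo : IsOpen H) (hHc : Convex ℝ H)
    {G φ : ℂ → ℂ} (hG : DifferentiableOn ℂ G H) (hφ : ContinuousOn φ H) (hφH : MapsTo φ H H)
    (hGN : ∀ w ∈ H, N.eval (Complex.exp (G w)) ≠ 0)
    (hGM : ∀ w ∈ H, M.eval (Complex.exp (G w)) ≠ 0)
    (hGφ : ∀ w ∈ H, fmap N M (G w) = G (φ w)) {w₀ : ℂ} (hw₀ : w₀ ∈ H) :
    ∃ G' : ℂ → ℂ, ContinuousOn G' H ∧ (∀ w ∈ H, G' w ∈ omega N M) ∧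
      (∀ w ∈ H, fmap N M (G' w) = G w) ∧ (∀ w ∈ H, G' (φ w) = G w) := by
  have hmem : ∀ w : H, G w.1 ∈ omega N M := by
    intro w
    refine ⟨hGM _ w.2, ?_⟩
    rw [hGφ _ w.2]
    exact hGN _ (hφH w.2)
  have hGc : Continuous fun w : H => G w.1 :=
    continuousOn_iff_continuous_domRestrict.mp hG.continuousOn
  let f : C(H, ℂ) := ⟨fun w => G w.1, hGc⟩
  let e : H → omega N M := fun w => ⟨G w.1, hmem w⟩
  have hec : Continuous e := Continuous.subtype_mk hGc _
  have hsep : IsSeparatedMap (pmap N M) := T2Space.isSeparatedMap _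
  have hbase : pmap N M (e ⟨w₀, hw₀⟩) = f ⟨φ w₀, hφH hw₀⟩ := hGφ w₀ hw₀
  have : ContractibleSpace H := hHc.contractibleSpace ⟨w₀, hw₀⟩
  obtain ⟨L, hL0, hL⟩ := exists_lift_convex hHc h.isLocalHomeomorph hsep f ⟨φ w₀, hφH hw₀⟩
    (e ⟨w₀, hw₀⟩) hbase (fun v => h.exists_path hHo hHc hG hGN (hφH hw₀) v.2 _ hbase)
  have hφc : Continuous (fun w : H => (⟨φ w.1, hφH w.2⟩ : H)) :=
    Continuous.subtype_mk (continuousOn_iff_continuous_domRestrict.mp hφ) _
  have huniq : (fun w : H => L ⟨φ w.1, hφH w.2⟩) = e := by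
    refine hsep.eq_of_comp_eq h.isLocalHomeomorph.isLocallyInjective (L.continuous.comp hφc) hec
      ?_ ⟨w₀, hw₀⟩ hL0
    funext w
    simp only [Function.comp_apply]
    rw [hL]
    exact (hGφ w.1 w.2).symm
  classical
  refine ⟨fun w => if hw : w ∈ H then (L ⟨w, hw⟩).1 else 0, ?_, ?_, ?_, ?_⟩
  · rw [continuousOn_iff_continuous_domRestrict]
    have : H.domRestrict (fun w => if hw : w ∈ H then (L ⟨w, hw⟩).1 else 0) =
        fun w : H => (L w).1 := by
      funext w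
      have h1 : w.1 ∈ H := w.2
      simp only [Set.domRestrict, h1, dif_pos]
    rw [this]
    exact continuous_subtype_val.comp L.continuous
  · intro w hw
    simp only [hw, dif_pos]
    exact (L ⟨w, hw⟩).2
  · intro w hw
    simp only [hw, dif_pos]
    exact hL ⟨w, hw⟩
  · intro w hw
    have h1 := congrFun huniq ⟨w, hw⟩
    have h2 := congrArg Subtype.val h1
    simp only [hφH hw, dif_pos]
    exact h2

/-- All backward lifts. -/
theorem Good.exists_lifts (h : Good N M) {H : Set ℂ} (hHo : IsOpen H) (hHc : Convex ℝ H)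
    {ψ φ : ℂ → ℂ} (hψ : DifferentiableOn ℂ ψ H)
    (hφ : ContinuousOn φ H) (hφH : MapsTo φ H H)
    (hψN : ∀ w ∈ H, N.eval (Complex.exp (ψ w)) ≠ 0)
    (hψM : ∀ w ∈ H, M.eval (Complex.exp (ψ w)) ≠ 0)
    (hψφ : ∀ w ∈ H, fmap N M (ψ w) = ψ (φ w)) {w₀ : ℂ} (hw₀ : w₀ ∈ H) (k : ℕ) :
    ∃ G : ℂ → ℂ, DifferentiableOn ℂ G H ∧ (∀ w ∈ H, M.eval (Complex.exp (G w)) ≠ 0) ∧
      (∀ w ∈ H, N.eval (Complex.exp (G w)) ≠ 0) ∧
      (∀ w ∈ H, fmap N M (G w) = G (φ w)) ∧
      (∀ w ∈ H, (fmap N M)^[k] (G w) = ψ w) ∧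
      (∀ w ∈ H, G (φ^[k] w) = ψ w) := by
  induction k with
  | zero =>
    exact ⟨ψ, hψ, hψM, hψN, hψφ, fun w _ => rfl, fun w _ => rfl⟩
  | succ k ih =>
    obtain ⟨G, hG, hGM, hGN, hGφ, hGk, hGk'⟩ := ih
    obtain ⟨G', hG', hG'Ω, hG'F, hG'φ⟩ := h.lift_step hHo hHc hG hφ hφH hGN hGM hGφ hw₀
    have hG'N : ∀ w ∈ H, N.eval (Complex.exp (G' w)) ≠ 0 := by
      intro w hw h0
      apply hGN w hw
      rw [← hG'F w hw, fmap_of_N h0]
      exact h0
    refine ⟨G', ?_, fun w hw => (hG'Ω w hw).1, hG'N, ?_, ?_, ?_⟩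
    · intro w hw
      refine DifferentiableAt.differentiableWithinAt ?_
      refine Q196.NM.differentiableAt_lift (hasStrictDerivAt_fmap N M (hG'Ω w hw).1)
        (h.yfun_ne_zero (hG'Ω w hw)) (hG'.continuousAt (hHo.mem_nhds hw))
        (hG.differentiableAt (hHo.mem_nhds hw)) ?_
      filter_upwards [hHo.mem_nhds hw] with y hy
      exact hG'F y hy
    · intro w hw
      rw [hG'F w hw, hG'φ w hw]
    · intro w hw
      rw [Function.iterate_succ_apply, hG'F w hw, hGk w hw]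
    · intro w hw
      rw [Function.iterate_succ_apply]
      have hit : ∀ j : ℕ, ∀ w ∈ H, φ^[j] w ∈ H := by
        intro j
        induction j with
        | zero => intro w hw; exact hw
        | succ j ihj => intro w hw; rw [Function.iterate_succ_apply]; exact ihj _ (hφH hw)
      have h1 : φ^[k] (φ w) = φ (φ^[k] w) := by
        rw [← Function.iterate_succ_apply, Function.iterate_succ_apply']
      rw [h1, hG'φ _ (hit k w hw), hGk' w hw]

end Q196.EX
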