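import Pool.Agent.Q196.EX.Path
import Pool.Agent.Q196.NM.Lift

/-!
# The map `ζ ↦ ζ - T(exp ζ)` for a rational function `T = N / M`
-/

set_option autoImplicit false

open Polynomial Topology Set Filter Bornology

namespace Q196.EX

noncomputable def tfun (N M : ℂ[X]) (w : ℂ) : ℂ := N.eval w / M.eval w

noncomputable def tder (N M : ℂ[X]) (w : ℂ) : ℂ :=
  ((derivative N).eval w * M.eval w - N.eval w * (derivative M).eval w) / M.eval w ^ 2

noncomputable def yfun (N M : ℂ[X]) (w : ℂ) : ℂ := 1 - w * tder N M w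

noncomputable def fmap (N M : ℂ[X]) (ζ : ℂ) : ℂ := ζ - tfun N M (Complex.exp ζ)

/-- `T = N / M` vanishes at `0` and the critical points of `ζ - T(exp ζ)` are exactly the zeros of
`T(exp ζ)`. -/
structure Good (N M : ℂ[X]) : Prop where
  cop : ∀ w : ℂ, M.eval w = 0 → N.eval w ≠ 0
  M0 : M.eval 0 ≠ 0
  N0 : N.eval 0 = 0
  Nne : N ≠ 0
  fixed : ∀ w : ℂ, w ≠ 0 → N.eval w = 0 → yfun N M w = 0
  crit : ∀ w : ℂ, w ≠ 0 → M.eval w ≠ 0 → yfun N M w = 0 → N.eval w = 0

variable {N M : ℂ[X]}

theorem Good.M_of_N (h : Good N M) {w : ℂ} (hw : N.eval w = 0) : M.eval w ≠ 0 :=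
  fun h1 => h.cop w h1 hw

theorem hasStrictDerivAt_tfun (N M : ℂ[X]) {w : ℂ} (hw : M.eval w ≠ 0) :
    HasStrictDerivAt (tfun N M) (tder N M w) w :=
  (N.hasStrictDerivAt w).div (M.hasStrictDerivAt w) hw

theorem hasStrictDerivAt_fmap (N M : ℂ[X]) {ζ : ℂ} (hζ : M.eval (Complex.exp ζ) ≠ 0) :
    HasStrictDerivAt (fmap N M) (yfun N M (Complex.exp ζ)) ζ := by
  have h1 : HasStrictDerivAt (fun z => tfun N M (Complex.exp z))
      (tder N M (Complex.exp ζ) * Complex.exp ζ) ζ :=
    (hasStrictDerivAt_tfun N M hζ).comp ζ (Complex.hasStrictDerivAt_exp ζ)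
  have h2 := (hasStrictDerivAt_id ζ).sub h1
  rw [mul_comm] at h2
  exact h2

theorem fmap_of_N {ζ : ℂ} (h : N.eval (Complex.exp ζ) = 0) : fmap N M ζ = ζ := by
  simp [fmap, tfun, h]

/-- numerator of `Y` -/
noncomputable def anum (N M : ℂ[X]) : ℂ[X] :=
  M ^ 2 - X * (derivative N * M - N * derivative M)

theorem yfun_mul {w : ℂ} (hw : M.eval w ≠ 0) :
    M.eval w ^ 2 * yfun N M w = (anum N M).eval w := by
  simp only [yfun, tder, anum, eval_sub, eval_mul, eval_pow, eval_X]
  field_simp

theorem degree_anum (h : M.natDegree < N.natDegree) : (M ^ 2).degree ≤ (anum N M).degree := by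
  rcases eq_or_ne M 0 with rfl | hM0
  · simp
  set n := N.natDegree with hn
  set m := M.natDegree with hm
  have hN0 : N ≠ 0 := by
    rintro rfl
    simp at hn
    omega
  have h1 : (X * derivative N).coeff n = N.coeff n * n := by
    obtain ⟨k, hk⟩ : ∃ k, n = k + 1 := ⟨n - 1, by omega⟩
    rw [hk, coeff_X_mul, coeff_derivative]
    push_cast
    ring
  have h1' : (X * derivative N).natDegree ≤ n := by
    refine natDegree_mul_le.trans ?_
    rw [natDegree_X]
    have := natDegree_derivative_le N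
    omega
  have h2 : (X * derivative M).coeff m = M.coeff m * m := by
    rcases Nat.eq_zero_or_pos m with h0 | h0
    · rw [h0]; simp
    · obtain ⟨k, hk⟩ : ∃ k, m = k + 1 := ⟨m - 1, by omega⟩
      rw [hk, coeff_X_mul, coeff_derivative]
      push_cast
      ring
  have h2' : (X * derivative M).natDegree ≤ m := by
    rcases Nat.eq_zero_or_pos m with h0 | h0
    · have : derivative M = 0 := by
        rw [natDegree_eq_zero_iff_degree_le_zero] at h0
        exact derivative_of_natDegree_zero (natDegree_eq_zero_iff_degree_le_zero.mpr h0)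
      rw [this, mul_zero, natDegree_zero]
      omega
    · refine natDegree_mul_le.trans ?_
      rw [natDegree_X]
      have := natDegree_derivative_le M
      omega
  have hA : anum N M = M * M - (X * derivative N) * M + N * (X * derivative M) := by
    rw [anum]; ring
  have h3 : (M * M).coeff (n + m) = 0 := by
    apply coeff_eq_zero_of_natDegree_lt
    refine natDegree_mul_le.trans_lt ?_
    omega
  have h4 : ((X * derivative N) * M).coeff (n + m) = N.coeff n * n * M.coeff m := by
    rw [coeff_mul_add_eq_of_natDegree_le h1' le_rfl, h1]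
  have h5 : (N * (X * derivative M)).coeff (n + m) = N.coeff n * (M.coeff m * m) := by
    rw [coeff_mul_add_eq_of_natDegree_le le_rfl h2', h2]
  have h6 : (anum N M).coeff (n + m) ≠ 0 := by
    rw [hA, coeff_add, coeff_sub, h3, h4, h5]
    have h7 : N.coeff n ≠ 0 := by rw [hn]; exact leadingCoeff_ne_zero.mpr hN0
    have h8 : M.coeff m ≠ 0 := by rw [hm]; exact leadingCoeff_ne_zero.mpr hM0
    have h9 : ((m : ℂ) - n) ≠ 0 := by
      rw [sub_ne_zero]
      exact_mod_cast h.ne
    have h10 : (0 : ℂ) - N.coeff n * n * M.coeff m + N.coeff n * (M.coeff m * m) =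
        N.coeff n * M.coeff m * (m - n) := by ring
    rw [h10]
    exact mul_ne_zero (mul_ne_zero h7 h8) h9
  have h7 := le_degree_of_ne_zero h6
  refine le_trans ?_ h7
  refine (degree_pow_le _ _).trans ?_
  rw [degree_eq_natDegree hM0, ← hm]
  have : (2 • (m : WithBot ℕ)) = ((2 * m : ℕ) : WithBot ℕ) := by
    rw [two_nsmul]; push_cast; ring
  rw [this]
  exact_mod_cast (by omega : 2 * m ≤ n + m)

/-- near a pole of `T` -/
theorem exists_pole_form {a : ℂ} (hM : M ≠ 0) (ha : M.eval a = 0) (ha0 : a ≠ 0)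
    (hN : N.eval a ≠ 0) : ∃ (k : ℕ) (M1 A2 : ℂ[X]), A2.eval a ≠ 0 ∧
      ∀ w : ℂ, M.eval w ≠ 0 → (w - a) ^ (k + 2) * M1.eval w ^ 2 * yfun N M w = A2.eval w := by
  have hroot : 0 < M.rootMultiplicity a := (rootMultiplicity_pos hM).mpr ha
  obtain ⟨k, hk⟩ : ∃ k, M.rootMultiplicity a = k + 1 := ⟨M.rootMultiplicity a - 1, by omega⟩
  obtain ⟨M1, hM1, hM1a⟩ := exists_eq_pow_rootMultiplicity_mul_and_not_dvd M hM a
  rw [hk] at hM1
  have hM1a' : M1.eval a ≠ 0 := by
    intro h
    exact hM1a (dvd_iff_isRoot.mpr h)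
  set A2 : ℂ[X] := (X - C a) ^ (k + 2) * M1 ^ 2 - X * (derivative N * (X - C a) * M1 -
    N * (C ((k : ℂ) + 1) * M1 + (X - C a) * derivative M1)) with hA2
  refine ⟨k, M1, A2, ?_, ?_⟩
  · have h1 : A2.eval a = a * (N.eval a * (((k : ℂ) + 1) * M1.eval a)) := by
      simp [hA2]
    rw [h1]
    have h2 : ((k : ℂ) + 1) ≠ 0 := by exact_mod_cast Nat.succ_ne_zero k
    exact mul_ne_zero ha0 (mul_ne_zero hN (mul_ne_zero h2 hM1a'))
  · intro w hw
    have hwa : w - a ≠ 0 := by
      intro h
      apply hw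
      rw [sub_eq_zero.mp h]
      exact ha
    have h1 := yfun_mul (N := N) hw
    have hMd : derivative M = (X - C a) ^ k * (C ((k : ℂ) + 1) * M1 + (X - C a) * derivative M1) := by
      rw [hM1, derivative_mul, derivative_pow]
      simp only [Nat.add_sub_cancel, derivative_sub, derivative_X, derivative_C, sub_zero, mul_one,
        Nat.cast_add, Nat.cast_one]
      simp only [map_add, map_natCast, C_1]
      ring
    have hA : (anum N M) = (X - C a) ^ k * A2 := by
      rw [anum, hMd, hA2]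
      nth_rewrite 1 2 [hM1]
      ring
    have h2 : M.eval w = (w - a) ^ (k + 1) * M1.eval w := by
      conv_lhs => rw [hM1]
      simp
    rw [hA, h2, eval_mul, eval_pow, eval_sub, eval_X, eval_C] at h1
    have h3 : (w - a) ^ k ≠ 0 := pow_ne_zero _ hwa
    apply mul_left_cancel₀ h3
    rw [← h1]
    ring

theorem exists_pow_tendsto_zero {ι : Type*} {l : Filter ι} {u : ι → ℂ} {c : ℂ}
    (hu : Tendsto u l (𝓝 c)) : Tendsto (fun i => u i - c) l (𝓝 0) := by
  have := hu.sub_const c
  rwa [sub_self] at this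

/-- `|F'|` is bounded below over a compact set of regular values. -/
theorem Good.exists_lower_bound (h : Good N M) {K : Set ℂ} (hK : IsCompact K)
    (hKN : ∀ y ∈ K, N.eval (Complex.exp y) ≠ 0) :
    ∃ δ : ℝ, 0 < δ ∧ ∀ ζ : ℂ, M.eval (Complex.exp ζ) ≠ 0 → fmap N M ζ ∈ K →
      δ ≤ ‖yfun N M (Complex.exp ζ)‖ := by
  have hM : M ≠ 0 := by
    rintro rfl
    exact h.M0 (by simp)
  by_contra hcon
  push Not at hcon
  have hseq : ∀ n : ℕ, ∃ ζ : ℂ, M.eval (Complex.exp ζ) ≠ 0 ∧ fmap N M ζ ∈ K ∧
      ‖yfun N M (Complex.exp ζ)‖ < 1 / ((n : ℝ) + 1) := fun n =>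
    hcon _ Nat.one_div_pos_of_nat
  choose ζ hζM hζK hζY using hseq
  set U : Ultrafilter ℕ := Filter.hyperfilter ℕ with hU
  have hUtop : (U : Filter ℕ) ≤ atTop := Nat.hyperfilter_le_atTop
  have hY0 : Tendsto (fun n => yfun N M (Complex.exp (ζ n))) U (𝓝 0) := by
    rw [tendsto_zero_iff_norm_tendsto_zero]
    refine squeeze_zero (fun _ => norm_nonneg _) (fun n => (hζY n).le) ?_
    exact tendsto_one_div_add_atTop_nhds_zero_nat.mono_left hUtop
  obtain ⟨BK, hBK⟩ := hK.isBounded.exists_norm_le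
  by_cases hb : ∃ R : ℝ, ∀ᶠ n in (U : Filter ℕ), ‖Complex.exp (ζ n)‖ ≤ R
  · -- the bounded case
    obtain ⟨R, hR⟩ := hb
    have hcomp : IsCompact (Metric.closedBall (0 : ℂ) R) := isCompact_closedBall _ _
    obtain ⟨a, -, ha⟩ := hcomp.ultrafilter_le_nhds (U.map fun n => Complex.exp (ζ n)) (by
      rw [le_principal_iff]
      change ∀ᶠ n in (U : Filter ℕ), Complex.exp (ζ n) ∈ Metric.closedBall (0 : ℂ) R
      filter_upwards [hR] with n hn
      rwa [mem_closedBall_zero_iff])
    have hw : Tendsto (fun n => Complex.exp (ζ n)) U (𝓝 a) := ha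
    by_cases hMa : M.eval a = 0
    · have ha0 : a ≠ 0 := by
        rintro rfl
        exact h.M0 hMa
      obtain ⟨k, M1, A2, hA2, hid⟩ := exists_pole_form hM hMa ha0 (h.cop a hMa)
      have h1 : Tendsto (fun n => A2.eval (Complex.exp (ζ n))) U (𝓝 (A2.eval a)) :=
        (A2.continuous.tendsto a).comp hw
      have h2 : Tendsto (fun n => (Complex.exp (ζ n) - a) ^ (k + 2) *
          M1.eval (Complex.exp (ζ n)) ^ 2 * yfun N M (Complex.exp (ζ n))) U (𝓝 0) := by
        have h3 : Tendsto (fun n => (Complex.exp (ζ n) - a) ^ (k + 2) *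
            M1.eval (Complex.exp (ζ n)) ^ 2) U (𝓝 ((a - a) ^ (k + 2) * M1.eval a ^ 2)) :=
          ((hw.sub_const a).pow _).mul (((M1.continuous.tendsto a).comp hw).pow 2)
        have h4 := h3.mul hY0
        rwa [mul_zero] at h4
      have h3 : Tendsto (fun n => A2.eval (Complex.exp (ζ n))) U (𝓝 0) :=
        h2.congr fun n => hid _ (hζM n)
      exact hA2 (tendsto_nhds_unique h1 h3)
    · have hYc : ContinuousAt (yfun N M) a := by
        unfold yfun tder
        refine continuousAt_const.sub (continuousAt_id.mul ?_)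
        refine ContinuousAt.div ?_ (M.continuous.continuousAt.pow 2) (pow_ne_zero 2 hMa)
        exact ((derivative N).continuous.continuousAt.mul M.continuous.continuousAt).sub
          (N.continuous.continuousAt.mul (derivative M).continuous.continuousAt)
      have hYa : yfun N M a = 0 := tendsto_nhds_unique (hYc.tendsto.comp hw) hY0
      have ha0 : a ≠ 0 := by
        rintro rfl
        simp [yfun] at hYa
      have hNa := h.crit a ha0 hMa hYa
      obtain ⟨y, hyK, hy⟩ := hK.ultrafilter_le_nhds (U.map fun n => fmap N M (ζ n)) (by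
        rw [le_principal_iff]
        change ∀ᶠ n in (U : Filter ℕ), fmap N M (ζ n) ∈ K
        exact Eventually.of_forall hζK)
      have hy' : Tendsto (fun n => fmap N M (ζ n)) U (𝓝 y) := hy
      have hT : Tendsto (fun n => tfun N M (Complex.exp (ζ n))) U (𝓝 0) := by
        have h1 := (hasStrictDerivAt_tfun N M hMa).hasDerivAt.continuousAt.tendsto.comp hw
        have h2 : tfun N M a = 0 := by simp [tfun, hNa]
        rwa [h2] at h1
      have hζy : Tendsto ζ U (𝓝 y) := by
        have h1 := hy'.add hT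
        rw [add_zero] at h1
        refine h1.congr fun n => ?_
        simp [fmap]
      have h1 : Tendsto (fun n => Complex.exp (ζ n)) U (𝓝 (Complex.exp y)) :=
        (Complex.continuous_exp.tendsto y).comp hζy
      have h2 := tendsto_nhds_unique h1 hw
      exact hKN y hyK (by rw [h2]; exact hNa)
  · -- the unbounded case
    push Not at hb
    have hb' : ∀ R : ℝ, ∀ᶠ n in (U : Filter ℕ), R < ‖Complex.exp (ζ n)‖ := by
      exact hb
    by_cases hdeg : M.natDegree < N.natDegree
    · obtain ⟨C, R, hC, hR⟩ := Q196.NM.eventually_bound (P := M ^ 2) (D := anum N M) (by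
        intro h0
        have := degree_anum hdeg
        rw [h0, degree_zero, le_bot_iff, degree_eq_bot] at this
        exact pow_ne_zero 2 hM this) (degree_anum hdeg)
      have h1 : Tendsto (fun n => C * ‖yfun N M (Complex.exp (ζ n))‖) U (𝓝 0) := by
        have := (tendsto_zero_iff_norm_tendsto_zero.mp hY0).const_mul C
        rwa [mul_zero] at this
      have h2 : ∀ᶠ n in (U : Filter ℕ), (1 : ℝ) ≤ C * ‖yfun N M (Complex.exp (ζ n))‖ := by
        filter_upwards [hb' R] with n hn
        have h3 := hR _ hn.le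
        rw [← yfun_mul (hζM n), eval_pow, norm_mul] at h3
        have h4 : 0 < ‖M.eval (Complex.exp (ζ n)) ^ 2‖ := norm_pos_iff.mpr (pow_ne_zero 2 (hζM n))
        have h5 : ‖M.eval (Complex.exp (ζ n)) ^ 2‖ * 1 ≤
            ‖M.eval (Complex.exp (ζ n)) ^ 2‖ * (C * ‖yfun N M (Complex.exp (ζ n))‖) := by
          linarith
        exact le_of_mul_le_mul_left h5 h4
      have h3 := ge_of_tendsto h1 h2
      linarith
    · push Not at hdeg
      have hdeg' : N.degree ≤ M.degree := by
        rw [degree_eq_natDegree h.Nne, degree_eq_natDegree hM]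
        exact_mod_cast hdeg
      obtain ⟨C, R, hC, hR⟩ := Q196.NM.eventually_bound hM hdeg'
      obtain ⟨n, hn1, hn2⟩ := ((hb' R).and (hb' (Real.exp (BK + C)))).exists
      have h1 : ‖tfun N M (Complex.exp (ζ n))‖ ≤ C := by
        rw [tfun, norm_div, div_le_iff₀ (norm_pos_iff.mpr (hζM n))]
        exact hR _ hn1.le
      have h2 : ‖ζ n‖ ≤ BK + C := by
        have h3 : ζ n = fmap N M (ζ n) + tfun N M (Complex.exp (ζ n)) := by simp [fmap]
        rw [h3]
        exact (norm_add_le _ _).trans (add_le_add (hBK _ (hζK n)) h1)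
      rw [Complex.norm_exp] at hn2
      have h3 := Real.exp_lt_exp.mp hn2
      have h4 := (Complex.re_le_norm (ζ n)).trans h2
      linarith

end Q196.EX
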