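import Mathlib

/-!
# Lifting paths and maps on convex sets through a local homeomorphism

If every partial lift of a path has a limit then the path lifts; if all segments lift then a
continuous map on a convex set lifts.
-/

set_option autoImplicit false

open Topology Set Filter unitInterval

namespace Q196.EX

variable {E X : Type*} [TopologicalSpace E] [TopologicalSpace X] {p : E → X}

/-- Path lifting from the existence of limits of partial lifts. -/
theorem exists_path_lift [T2Space X] (homeo : IsLocalHomeomorph p) (sep : IsSeparatedMap p)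
    (γ : C(I, X)) (e₀ : E) (h0 : p e₀ = γ 0)
    (hlim : ∀ t : I, 0 < t → ∀ g : I → E, ContinuousOn g (Iio t) →
      (∀ s < t, p (g s) = γ s) → ∃ e, Tendsto g (𝓝[<] t) (𝓝 e)) :
    ∃ Γ : C(I, E), Γ 0 = e₀ ∧ ∀ t, p (Γ t) = γ t := by
  set S : Set I := {t | ∃ Γ : C(I, E), Γ 0 = e₀ ∧ ∀ s, p (Γ s) = γ (min s t)} with hS
  have hdown : ∀ t ∈ S, ∀ t' ≤ t, t' ∈ S := by
    rintro t ⟨Γ, hΓ0, hΓ⟩ t' ht'
    refine ⟨Γ.comp ⟨fun s => min s t', by fun_prop⟩, ?_, fun s => ?_⟩
    · simp only [ContinuousMap.comp_apply, ContinuousMap.coe_mk]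
      rw [min_eq_left (unitInterval.nonneg'), hΓ0]
    · simp only [ContinuousMap.comp_apply, ContinuousMap.coe_mk]
      rw [hΓ, min_assoc, min_eq_left ht']
  have hne : (0 : I) ∈ S := by
    refine ⟨ContinuousMap.const _ e₀, rfl, fun s => ?_⟩
    simp only [ContinuousMap.const_apply]
    rw [min_eq_right (unitInterval.nonneg'), h0]
  have hopen : IsOpen S := by
    rw [isOpen_iff_mem_nhds]
    rintro t ht
    have ht0 := ht
    obtain ⟨Γ, hΓ0, hΓ⟩ := ht
    rcases eq_or_lt_of_le (unitInterval.le_one' (t := t)) with h1 | h1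
    · have : S = univ := by
        refine eq_univ_of_forall fun s => hdown t ht0 s ?_
        rw [h1]
        exact unitInterval.le_one'
      rw [this]
      exact univ_mem
    · obtain ⟨q, hq, hpq⟩ := homeo (Γ t)
      have hW : γ ⁻¹' q.target ∈ 𝓝 t := by
        refine (q.open_target.preimage γ.continuous).mem_nhds ?_
        rw [mem_preimage]
        have h2 := hΓ t
        rw [min_self] at h2
        rw [← h2, hpq]
        exact q.map_source hq
      obtain ⟨u, hu, huW⟩ := exists_Ico_subset_of_mem_nhds hW ⟨1, h1⟩
      obtain ⟨t', ht1, ht2⟩ := exists_between hu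
      have hIcc : ∀ s : I, max t (min s t') ∈ γ ⁻¹' q.target := by
        intro s
        apply huW
        refine ⟨le_max_left _ _, ?_⟩
        exact max_lt (ht1.trans ht2) ((min_le_right _ _).trans_lt ht2)
      have hsymm : Continuous fun s : I => q.symm (γ (max t (min s t'))) := by
        refine q.continuousOn_symm.comp_continuous (by fun_prop) hIcc
      have ht'S : t' ∈ S := by
        refine ⟨⟨fun s => if s ≤ t then Γ s else q.symm (γ (max t (min s t'))), ?_⟩, ?_, ?_⟩
        · refine Continuous.if_le Γ.continuous hsymm continuous_id continuous_const ?_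
          intro s hs
          subst hs
          rw [min_eq_left ht1.le, max_self]
          have h2 := hΓ s
          rw [min_self, hpq] at h2
          rw [← h2, q.left_inv hq]
        · simp only [ContinuousMap.coe_mk]
          rw [if_pos unitInterval.nonneg', hΓ0]
        · intro s
          simp only [ContinuousMap.coe_mk]
          split_ifs with h
          · rw [hΓ s, min_eq_left h, min_eq_left (h.trans ht1.le)]
          · push Not at h
            rw [hpq, q.right_inv (hIcc s), max_eq_right]
            exact le_min h.le ht1.le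
      refine mem_of_superset (Iio_mem_nhds ht1) fun s hs => hdown t' ht'S s (le_of_lt hs)
  have hclosed : IsClosed S := by
    rw [← closure_subset_iff_isClosed]
    intro t ht
    by_contra htS
    have hlt : ∀ s ∈ S, s < t := by
      intro s hs
      by_contra h
      push Not at h
      exact htS (hdown s hs t h)
    have hall : ∀ s < t, s ∈ S := by
      intro s hs
      rw [mem_closure_iff_nhds] at ht
      obtain ⟨u, hu1, hu2⟩ := ht (Ioi s) (Ioi_mem_nhds hs)
      exact hdown u hu2 s (le_of_lt hu1)
    have ht0 : (0 : I) < t := hlt 0 hne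
    have : Nonempty C(I, E) := ⟨ContinuousMap.const _ e₀⟩
    choose! Γ hΓ0 hΓ using hall
    have hcomp : ∀ s s' : I, s ≤ s' → s' < t → ∀ u ≤ s, Γ s u = Γ s' u := by
      intro s s' hss' hs' u hu
      have h1 : (fun u : I => Γ s u) = fun u : I => Γ s' (min u s) := by
        refine sep.eq_of_comp_eq homeo.isLocallyInjective (Γ s).continuous
          ((Γ s').continuous.comp (by fun_prop)) ?_ 0 ?_
        · funext v
          simp only [Function.comp_apply]
          rw [hΓ s (hss'.trans_lt hs'), hΓ s' hs', min_assoc, min_eq_left hss']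
        · rw [min_eq_left unitInterval.nonneg', hΓ0 s (hss'.trans_lt hs'), hΓ0 s' hs']
      have h2 : Γ s u = Γ s' (min u s) := congrFun h1 u
      rw [h2, min_eq_left hu]
    set g : I → E := fun s => Γ s s with hg
    have hgeq : ∀ s < t, ∀ u ≤ s, g u = Γ s u := fun s hs u hu => hcomp u s hu hs u le_rfl
    have hgc : ContinuousOn g (Iio t) := by
      intro s hs
      obtain ⟨s', hs1, hs2⟩ := exists_between (mem_Iio.mp hs)
      have h1 : g =ᶠ[𝓝 s] Γ s' := by
        filter_upwards [Iio_mem_nhds hs1] with u hu
        exact hgeq s' hs2 u (le_of_lt hu)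
      exact ((Γ s').continuous.continuousAt.congr h1.symm).continuousWithinAt
    have hgl : ∀ s < t, p (g s) = γ s := by
      intro s hs
      rw [hg]
      simp only
      rw [hΓ s hs, min_self]
    obtain ⟨e, he⟩ := hlim t ht0 g hgc hgl
    have hNB : (𝓝[<] t).NeBot := nhdsLT_neBot_of_exists_lt ⟨0, ht0⟩
    have hpe : p e = γ t := by
      have h1 : Tendsto (fun s => p (g s)) (𝓝[<] t) (𝓝 (p e)) :=
        (homeo.continuous.tendsto e).comp he
      have h2 : Tendsto (fun s => p (g s)) (𝓝[<] t) (𝓝 (γ t)) := by
        refine (γ.continuous.continuousWithinAt (s := Iio t) (x := t)).tendsto.congr' ?_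
        filter_upwards [self_mem_nhdsWithin] with s hs
        exact (hgl s hs).symm
      exact tendsto_nhds_unique h1 h2
    apply htS
    classical
    refine ⟨⟨fun s => if s < t then g s else e, ?_⟩, ?_, ?_⟩
    · rw [continuous_iff_continuousAt]
      intro s
      rcases lt_trichotomy s t with h | h | h
      · have h1 : (fun s => if s < t then g s else e) =ᶠ[𝓝 s] g := by
          filter_upwards [Iio_mem_nhds h] with u hu
          rw [if_pos (show u < t from hu)]
        exact ((hgc s h).continuousAt (Iio_mem_nhds h)).congr h1.symm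
      · subst h
        rw [ContinuousAt, if_neg (lt_irrefl s), ← nhdsLT_sup_nhdsGE, tendsto_sup]
        constructor
        · refine he.congr' ?_
          filter_upwards [self_mem_nhdsWithin] with u hu
          rw [if_pos (show u < s from hu)]
        · refine tendsto_const_nhds.congr' ?_
          filter_upwards [self_mem_nhdsWithin] with u hu
          rw [if_neg (not_lt.mpr hu)]
      · have h1 : (fun s => if s < t then g s else e) =ᶠ[𝓝 s] fun _ => e := by
          filter_upwards [Ioi_mem_nhds h] with u hu
          rw [if_neg (not_lt.mpr (le_of_lt (show t < u from hu)))]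
        exact continuousAt_const.congr h1.symm
    · simp only [ContinuousMap.coe_mk]
      rw [if_pos ht0, hg]
      exact hΓ0 0 ht0
    · intro s
      simp only [ContinuousMap.coe_mk]
      split_ifs with h
      · rw [hgl s h, min_eq_left h.le]
      · push Not at h
        rw [hpe, min_eq_right h]
  have huniv : S = univ := IsClopen.eq_univ ⟨hclosed, hopen⟩ ⟨0, hne⟩
  obtain ⟨Γ, hΓ0, hΓ⟩ : (1 : I) ∈ S := huniv ▸ mem_univ _
  refine ⟨Γ, hΓ0, fun t => ?_⟩
  rw [hΓ, min_eq_left unitInterval.le_one']

/-- Lifting a continuous map on a convex set when all segments from a base point lift. -/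
theorem exists_lift_convex {H : Set ℂ} (hH : Convex ℝ H) (homeo : IsLocalHomeomorph p)
    (sep : IsSeparatedMap p) (f : C(H, X)) (v₀ : H) (e₀ : E) (h0 : p e₀ = f v₀)
    (hpath : ∀ v : H, ∃ Γ : C(I, E), Γ 0 = e₀ ∧
      ∀ t : I, p (Γ t) = f ⟨AffineMap.lineMap v₀.1 v.1 (t : ℝ),
        hH.lineMap_mem v₀.2 v.2 t.2⟩) :
    ∃ L : C(H, E), L v₀ = e₀ ∧ ∀ v, p (L v) = f v := by
  choose Γ hΓ0 hΓ using hpath
  let f' : C(I × H, X) := f.comp
    ⟨fun tv => ⟨AffineMap.lineMap v₀.1 tv.2.1 (tv.1 : ℝ), hH.lineMap_mem v₀.2 tv.2.2 tv.1.2⟩, by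
      refine Continuous.subtype_mk ?_ _
      simp only [AffineMap.lineMap_apply_module]
      fun_prop⟩
  have hc : Continuous fun tv : I × H => Γ tv.2 tv.1 := by
    refine homeo.continuous_lift sep f' ?_ ?_ ?_
    · funext tv
      exact hΓ tv.2 tv.1
    · simp only [hΓ0]
      exact continuous_const
    · intro v
      exact (Γ v).continuous
  refine ⟨⟨fun v => Γ v 1, hc.comp (by fun_prop : Continuous fun v : H => ((1 : I), v))⟩, ?_, ?_⟩
  · simp only [ContinuousMap.coe_mk]
    have h1 : (fun t : I => Γ v₀ t) = fun _ : I => e₀ := by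
      refine sep.eq_of_comp_eq homeo.isLocallyInjective (Γ v₀).continuous continuous_const ?_ 0
        (hΓ0 v₀)
      funext t
      simp only [Function.comp_apply]
      rw [hΓ v₀ t, h0]
      congr 1
      apply Subtype.ext
      simp
    exact congrFun h1 1
  · intro v
    simp only [ContinuousMap.coe_mk]
    rw [hΓ v 1]
    congr 1
    apply Subtype.ext
    simp

end Q196.EX
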