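import Pool.Agent.Q196.EX.Lift

/-!
# A petal of `F(ζ) = ζ - T(exp ζ)` over `exp ζ = 0`
-/

set_option autoImplicit false

open Polynomial Topology Set Filter Bornology

namespace Q196.EX

variable {N M : ℂ[X]}

/-- local form of `T` at `0` -/
theorem Good.exists_local (h : Good N M) : ∃ (m : ℕ) (N1 : ℂ[X]), 0 < m ∧ N = X ^ m * N1 ∧
    N1.eval 0 ≠ 0 := by
  have hroot : 0 < N.rootMultiplicity 0 := (rootMultiplicity_pos h.Nne).mpr h.N0
  obtain ⟨N1, hN1, hN1a⟩ := exists_eq_pow_rootMultiplicity_mul_and_not_dvd N h.Nne 0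
  refine ⟨N.rootMultiplicity 0, N1, hroot, ?_, ?_⟩
  · rw [C_0, sub_zero] at hN1
    exact hN1
  · intro h0
    exact hN1a (dvd_iff_isRoot.mpr h0)

noncomputable def psi (l : ℂ) (m : ℕ) (V : ℂ) : ℂ := -(Complex.log V + l) / m

noncomputable def phi (N M : ℂ[X]) (l : ℂ) (m : ℕ) (V : ℂ) : ℂ :=
  V * Complex.exp (m * tfun N M (Complex.exp (psi l m V)))

theorem psi_re (l : ℂ) (m : ℕ) (V : ℂ) :
    (psi l m V).re = -(Real.log ‖V‖ + l.re) / m := by
  rw [psi, Complex.div_natCast_re, Complex.neg_re, Complex.add_re, Complex.log_re]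

theorem Good.exists_petal (h : Good N M) (B : ℝ) :
    ∃ (R₁ : ℝ) (ψ φ : ℂ → ℂ), 0 < R₁ ∧
      DifferentiableOn ℂ ψ {w : ℂ | R₁ < w.re} ∧
      ContinuousOn φ {w : ℂ | R₁ < w.re} ∧
      (∀ w : ℂ, R₁ < w.re → w.re + 1 / 2 ≤ (φ w).re) ∧
      (∀ w : ℂ, R₁ < w.re → ‖φ w - w‖ ≤ 3 / 2) ∧
      (∀ w : ℂ, R₁ < w.re → (ψ w).re < -B ∧ N.eval (Complex.exp (ψ w)) ≠ 0 ∧
        M.eval (Complex.exp (ψ w)) ≠ 0) ∧
      (∀ w : ℂ, R₁ < w.re → fmap N M (ψ w) = ψ (φ w)) := by
  obtain ⟨m, N1, hm, hN, hN1⟩ := h.exists_local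
  have hm0 : (m : ℂ) ≠ 0 := by exact_mod_cast hm.ne'
  have hmR : (0 : ℝ) < m := by exact_mod_cast hm
  set κ : ℂ := N1.eval 0 / M.eval 0 with hκ
  have hκ0 : κ ≠ 0 := div_ne_zero hN1 h.M0
  set l : ℂ := Complex.log (m * κ) with hl
  have hexpl : Complex.exp l = m * κ := Complex.exp_log (mul_ne_zero hm0 hκ0)
  -- the local behaviour near `0`
  set ρ : ℂ → ℂ := fun w => N1.eval w / M.eval w / κ with hρ
  have hρc : ContinuousAt ρ 0 :=
    ((N1.continuous.continuousAt).div M.continuous.continuousAt h.M0).div_const κ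
  have hρ0 : ρ 0 = 1 := by
    simp only [hρ]
    rw [← hκ, div_self hκ0]
  have hloc : ∀ᶠ w in 𝓝 (0 : ℂ), ‖ρ w - 1‖ < 1 / 8 ∧ M.eval w ≠ 0 ∧ N1.eval w ≠ 0 := by
    have h1 : ∀ᶠ w in 𝓝 (0 : ℂ), ‖ρ w - 1‖ < 1 / 8 := by
      have := Metric.tendsto_nhds.mp hρc.tendsto (1 / 8) (by norm_num)
      filter_upwards [this] with w hw
      rwa [hρ0, dist_eq_norm] at hw
    have h2 : ∀ᶠ w in 𝓝 (0 : ℂ), M.eval w ≠ 0 := M.continuous.continuousAt.eventually_ne h.M0
    have h3 : ∀ᶠ w in 𝓝 (0 : ℂ), N1.eval w ≠ 0 := N1.continuous.continuousAt.eventually_ne hN1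
    filter_upwards [h1, h2, h3] with w a b c
    exact ⟨a, b, c⟩
  obtain ⟨η, hη, hηloc⟩ := Metric.eventually_nhds_iff.mp hloc
  set B' : ℝ := max B (-Real.log η) with hB'
  set R₁ : ℝ := max 8 (Real.exp (m * B' - l.re)) with hR₁
  have hR₁0 : 0 < R₁ := lt_of_lt_of_le (by norm_num) (le_max_left _ _)
  have hnorm : ∀ w : ℂ, R₁ < w.re → R₁ < ‖w‖ := fun w hw => hw.trans_le (Complex.re_le_norm w)
  have hw0 : ∀ w : ℂ, R₁ < w.re → w ≠ 0 := by
    rintro w hw rfl
    simp only [Complex.zero_re] at hw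
    linarith
  have hre : ∀ w : ℂ, R₁ < w.re → (psi l m w).re < -B' := by
    intro w hw
    rw [psi_re, neg_div, neg_lt_neg_iff, lt_div_iff₀ hmR]
    have h1 : Real.exp (m * B' - l.re) < ‖w‖ := (le_max_right _ _).trans_lt (hnorm w hw)
    have h2 := Real.log_lt_log (Real.exp_pos _) h1
    rw [Real.log_exp] at h2
    linarith
  have hsmall : ∀ w : ℂ, R₁ < w.re → ‖Complex.exp (psi l m w)‖ < η := by
    intro w hw
    rw [Complex.norm_exp]
    have h1 := hre w hw
    have h2 : -B' ≤ Real.log η := by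
      have := le_max_right B (-Real.log η)
      rw [← hB'] at this
      linarith
    calc Real.exp (psi l m w).re < Real.exp (Real.log η) := Real.exp_lt_exp.mpr (by linarith)
      _ = η := Real.exp_log hη
  have hlw : ∀ w : ℂ, R₁ < w.re → ‖ρ (Complex.exp (psi l m w)) - 1‖ < 1 / 8 ∧
      M.eval (Complex.exp (psi l m w)) ≠ 0 ∧ N1.eval (Complex.exp (psi l m w)) ≠ 0 := by
    intro w hw
    apply hηloc
    rw [dist_zero_right]
    exact hsmall w hw
  have hpow : ∀ w : ℂ, R₁ < w.re → Complex.exp (psi l m w) ^ m = (w * (m * κ))⁻¹ := by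
    intro w hw
    rw [← Complex.exp_nat_mul, psi, mul_div_cancel₀ _ hm0, Complex.exp_neg, Complex.exp_add,
      Complex.exp_log (hw0 w hw), hexpl]
  have hθ : ∀ w : ℂ, R₁ < w.re → (m : ℂ) * tfun N M (Complex.exp (psi l m w)) =
      ρ (Complex.exp (psi l m w)) / w := by
    intro w hw
    have h1 := hw0 w hw
    have h2 := (hlw w hw).2.1
    simp only [tfun, hρ]
    nth_rewrite 1 [hN]
    rw [eval_mul, eval_pow, eval_X, hpow w hw]
    field_simp
  have hρn : ∀ w : ℂ, R₁ < w.re → ‖ρ (Complex.exp (psi l m w))‖ ≤ 9 / 8 := by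
    intro w hw
    have h1 := (hlw w hw).1
    calc ‖ρ (Complex.exp (psi l m w))‖ = ‖(ρ (Complex.exp (psi l m w)) - 1) + 1‖ := by ring_nf
      _ ≤ ‖ρ (Complex.exp (psi l m w)) - 1‖ + ‖(1 : ℂ)‖ := norm_add_le _ _
      _ ≤ 9 / 8 := by rw [norm_one]; linarith
  have hθn : ∀ w : ℂ, R₁ < w.re → ‖ρ (Complex.exp (psi l m w)) / w‖ ≤ 9 / 64 := by
    intro w hw
    rw [norm_div, div_le_iff₀ (norm_pos_iff.mpr (hw0 w hw))]
    have h1 : (8 : ℝ) ≤ ‖w‖ := ((le_max_left _ _).trans_lt (hnorm w hw)).le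
    have h2 := hρn w hw
    nlinarith
  have hphi : ∀ w : ℂ, R₁ < w.re → ‖phi N M l m w - w - 1‖ ≤ 1 / 2 := by
    intro w hw
    set r := ρ (Complex.exp (psi l m w)) with hr
    have hw' := hw0 w hw
    have h1 : phi N M l m w - w - 1 = w * (Complex.exp (r / w) - 1 - r / w) + (r - 1) := by
      rw [phi, hθ w hw]
      field_simp
      ring
    rw [h1]
    have h2 : ‖Complex.exp (r / w) - 1 - r / w‖ ≤ ‖r / w‖ ^ 2 :=
      Complex.norm_exp_sub_one_sub_id_le ((hθn w hw).trans (by norm_num))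
    have h3 : ‖w * (Complex.exp (r / w) - 1 - r / w)‖ ≤ 1 / 4 := by
      rw [norm_mul]
      have h4 : ‖w‖ * ‖Complex.exp (r / w) - 1 - r / w‖ ≤ ‖w‖ * ‖r / w‖ ^ 2 :=
        mul_le_mul_of_nonneg_left h2 (norm_nonneg _)
      have h5 : ‖w‖ * ‖r / w‖ ^ 2 = ‖r‖ * ‖r / w‖ := by
        rw [norm_div]
        have : ‖w‖ ≠ 0 := norm_ne_zero_iff.mpr hw'
        field_simp
      have h6 : ‖r‖ * ‖r / w‖ ≤ 9 / 8 * (9 / 64) :=
        mul_le_mul (hρn w hw) (hθn w hw) (norm_nonneg _) (by norm_num)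
      rw [h5] at h4
      have h7 : (9 / 8 * (9 / 64) : ℝ) ≤ 1 / 4 := by norm_num
      linarith
    have h8 := (hlw w hw).1
    calc _ ≤ ‖w * (Complex.exp (r / w) - 1 - r / w)‖ + ‖r - 1‖ := norm_add_le _ _
      _ ≤ 1 / 2 := by linarith
  have hdiff : ∀ w : ℂ, R₁ < w.re → DifferentiableAt ℂ (psi l m) w := by
    intro w hw
    have h1 : w ∈ Complex.slitPlane := Or.inl (hR₁0.trans hw)
    unfold psi
    exact (((Complex.differentiableAt_log h1).add_const _).neg).div_const _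
  refine ⟨R₁, psi l m, phi N M l m, hR₁0, fun w hw => (hdiff w hw).differentiableWithinAt,
    ?_, ?_, ?_, ?_, ?_⟩
  · intro w hw
    refine ContinuousAt.continuousWithinAt ?_
    have h1 : ContinuousAt (psi l m) w := (hdiff w hw).continuousAt
    have h2 : ContinuousAt (fun w => Complex.exp (psi l m w)) w :=
      Complex.continuous_exp.continuousAt.comp h1
    have h3 : ContinuousAt (tfun N M) (Complex.exp (psi l m w)) :=
      (hasStrictDerivAt_tfun N M (hlw w hw).2.1).hasDerivAt.continuousAt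
    have h4 : ContinuousAt (fun w => tfun N M (Complex.exp (psi l m w))) w :=
      ContinuousAt.comp (f := fun w => Complex.exp (psi l m w)) (g := tfun N M) h3 h2
    unfold phi
    exact continuousAt_id.mul (Complex.continuous_exp.continuousAt.comp
      (continuousAt_const.mul h4))
  · intro w hw
    have h1 := hphi w hw
    have h2 := (Complex.abs_re_le_norm _).trans h1
    rw [Complex.sub_re, Complex.sub_re, Complex.one_re, abs_le] at h2
    linarith [h2.1]
  · intro w hw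
    have h1 := hphi w hw
    calc ‖phi N M l m w - w‖ = ‖(phi N M l m w - w - 1) + 1‖ := by ring_nf
      _ ≤ ‖phi N M l m w - w - 1‖ + ‖(1 : ℂ)‖ := norm_add_le _ _
      _ ≤ 1 / 2 + 1 := by rw [norm_one]; linarith
      _ = 3 / 2 := by norm_num
  · intro w hw
    have h1 := hre w hw
    have h2 := hlw w hw
    refine ⟨?_, ?_, h2.2.1⟩
    · have := le_max_left B (-Real.log η)
      rw [← hB'] at this
      linarith
    · rw [hN, eval_mul, eval_pow, eval_X]
      exact mul_ne_zero (pow_ne_zero _ (Complex.exp_ne_zero _)) h2.2.2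
  · intro w hw
    have hw' := hw0 w hw
    have hrew : 0 < w.re := hR₁0.trans hw
    have hlog : Complex.log (phi N M l m w) =
        Complex.log w + m * tfun N M (Complex.exp (psi l m w)) := by
      have h3 : phi N M l m w =
          Complex.exp (Complex.log w + m * tfun N M (Complex.exp (psi l m w))) := by
        rw [Complex.exp_add, Complex.exp_log hw', phi]
      rw [h3]
      have h5 : |(Complex.log w).im| < Real.pi / 2 := by
        rw [Complex.log_im]
        exact Complex.abs_arg_lt_pi_div_two_iff.mpr (Or.inl hrew)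
      have h6 : |((m : ℂ) * tfun N M (Complex.exp (psi l m w))).im| < 1 := by
        rw [hθ w hw]
        exact (Complex.abs_im_le_norm _).trans_lt ((hθn w hw).trans_lt (by norm_num))
      have hpi := Real.pi_gt_three
      rw [abs_lt] at h5 h6
      refine Complex.log_exp ?_ ?_
      · rw [Complex.add_im]; linarith [h5.1, h6.1]
      · rw [Complex.add_im]; linarith [h5.2, h6.2]
    rw [fmap]
    conv_rhs => rw [psi, hlog]
    rw [psi]
    field_simp
    ring

end Q196.EX
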